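import Pool.Agent.Helper55.NI.Fac

/-!
Project NI (MP_b8862a_ag): Hodge numbers that are not the Hodge numbers of a tensor product.
-/

open Matrix MH

namespace NI

variable {n : Type*} [Fintype n] [DecidableEq n]
variable {h : Matrix n n ℂ} {E : ℝ → Matrix n n ℂ} {Λ : Finset ℝ}

/-- The numbers `r p` are not the Hodge numbers of a tensor product of two Hodge structures of weights `a` and
`w - a` with at least two nonzero Hodge numbers each. -/
def Indec (w : ℤ) (r : ℤ → ℕ) : Prop :=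
  ∀ (a : ℤ) (f g : ℤ →₀ ℕ), (∀ j, f (a - j) = f j) → (∀ j, g (w - a - j) = g j) →
    (∀ p : ℤ, r p = f.sum fun i x => x * g (p - i)) → f.support.card ≤ 1 ∨ g.support.card ≤ 1

/-- the eigenvalues of a matrix that is skew for a bilinear form are symmetric -/
theorem sym_of_skew {k X Y F Fi : Matrix n n ℂ} (x1 : Y * X = 1) (x2 : X * Y = 1) {γ : n → ℝ}
    (hk : k * X = X * diagonal (fun s => (γ s : ℂ))) (f1 : F * Fi = 1) (f2 : Fi * F = 1) (hF : Fi * kᵀ * F = -k)
    (μ : ℝ) : (Finset.univ.filter fun s => γ s = μ).card = (Finset.univ.filter fun s => γ s = -μ).card := by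
  have uX : IsUnit X.det := by
    rw [← Matrix.isUnit_iff_isUnit_det]
    exact ⟨⟨X, Y, x2, x1⟩, rfl⟩
  have uY : IsUnit Y.det := by
    rw [← Matrix.isUnit_iff_isUnit_det]
    exact ⟨⟨Y, X, x1, x2⟩, rfl⟩
  have uF : IsUnit F.det := by
    rw [← Matrix.isUnit_iff_isUnit_det]
    exact ⟨⟨F, Fi, f1, f2⟩, rfl⟩
  have uFi : IsUnit Fi.det := by
    rw [← Matrix.isUnit_iff_isUnit_det]
    exact ⟨⟨Fi, F, f2, f1⟩, rfl⟩
  have hr : ∀ ν : ℝ, (k - (ν : ℂ) • (1 : Matrix n n ℂ)).rank = (Finset.univ.filter fun s => ¬ γ s = ν).card := by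
    intro ν
    have e1 : k - (ν : ℂ) • (1 : Matrix n n ℂ) = X * diagonal (fun s => (γ s : ℂ) - (ν : ℂ)) * Y := by
      have e2 : diagonal (fun s => (γ s : ℂ) - (ν : ℂ)) =
          diagonal (fun s => (γ s : ℂ)) - (ν : ℂ) • (1 : Matrix n n ℂ) := by
        rw [← diagonal_one, ← diagonal_smul, diagonal_sub]
        congr 1
        funext s
        simp
      rw [e2, Matrix.mul_sub, ← hk, Matrix.mul_smul, Matrix.mul_one, Matrix.sub_mul, Matrix.mul_assoc, x2, Matrix.mul_one,
        Matrix.smul_mul, x2]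
    rw [e1, Matrix.rank_mul_eq_left_of_isUnit_det _ _ uY, Matrix.rank_mul_eq_right_of_isUnit_det _ _ uX,
      Matrix.rank_diagonal, Fintype.card_subtype]
    congr 1
    ext s
    simp only [Finset.mem_filter, Finset.mem_univ, true_and, ne_eq, sub_eq_zero]
    rw [not_iff_not]
    exact ⟨fun h => by exact_mod_cast h, fun h => by rw [h]⟩
  have ht : kᵀ = -(F * k * Fi) := by
    have e1 : F * (Fi * kᵀ * F) * Fi = kᵀ := by
      calc F * (Fi * kᵀ * F) * Fi = (F * Fi) * kᵀ * (F * Fi) := by simp only [Matrix.mul_assoc]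
        _ = kᵀ := by rw [f1, Matrix.one_mul, Matrix.mul_one]
    rw [← e1, hF, Matrix.mul_neg, Matrix.neg_mul]
  have hs : (k - (μ : ℂ) • (1 : Matrix n n ℂ)).rank = (k - ((-μ : ℝ) : ℂ) • (1 : Matrix n n ℂ)).rank := by
    rw [← Matrix.rank_transpose (k - (μ : ℂ) • (1 : Matrix n n ℂ))]
    have e1 : (k - (μ : ℂ) • (1 : Matrix n n ℂ))ᵀ = (-F) * (k - ((-μ : ℝ) : ℂ) • (1 : Matrix n n ℂ)) * Fi := by
      rw [Matrix.transpose_sub, Matrix.transpose_smul, Matrix.transpose_one, ht]
      push_cast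
      rw [neg_smul, sub_neg_eq_add, Matrix.neg_mul, Matrix.neg_mul, Matrix.mul_add, Matrix.add_mul, Matrix.mul_smul,
        Matrix.mul_one, Matrix.smul_mul, f1, neg_add, sub_eq_add_neg]
    have uF' : IsUnit (-F).det := by
      rw [← Matrix.isUnit_iff_isUnit_det]
      exact ((Matrix.isUnit_iff_isUnit_det F).mpr uF).neg
    rw [e1, Matrix.rank_mul_eq_left_of_isUnit_det _ _ uFi, Matrix.rank_mul_eq_right_of_isUnit_det _ _ uF']
  rw [hr, hr] at hs
  have h1 := Finset.card_filter_add_card_filter_not (s := (Finset.univ : Finset n)) (fun s => γ s = μ)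
  have h2 := Finset.card_filter_add_card_filter_not (s := (Finset.univ : Finset n)) (fun s => γ s = -μ)
  omega

theorem card_fst {d q : ℕ} (e : n ≃ Fin d × Fin q) (P : Fin d → Prop) [DecidablePred P] :
    (Finset.univ.filter fun s => P (e s).1).card = q * (Finset.univ.filter fun i => P i).card := by
  rw [Finset.card_filter, Equiv.sum_comp e (fun ik : Fin d × Fin q => if P ik.1 then 1 else 0), Fintype.sum_prod_type,
    Finset.card_filter, Finset.mul_sum]
  refine Finset.sum_congr rfl fun i _ => ?_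
  show (∑ _y : Fin q, if P i then 1 else 0) = _
  rw [Finset.sum_const, Finset.card_univ, Fintype.card_fin, smul_eq_mul]

theorem card_snd {d q : ℕ} (e : n ≃ Fin d × Fin q) (P : Fin q → Prop) [DecidablePred P] :
    (Finset.univ.filter fun s => P (e s).2).card = d * (Finset.univ.filter fun k => P k).card := by
  rw [Finset.card_filter, Equiv.sum_comp e (fun ik : Fin d × Fin q => if P ik.2 then 1 else 0),
    Fintype.sum_prod_type_right, Finset.card_filter, Finset.mul_sum]
  refine Finset.sum_congr rfl fun i _ => ?_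
  show (∑ _y : Fin d, if P i then 1 else 0) = _
  rw [Finset.sum_const, Finset.card_univ, Fintype.card_fin, smul_eq_mul]

/-- The splitting with symmetric eigenvalues. -/
theorem fac [Nonempty n] (S : Spec h E Λ) (A : Subalgebra ℂ (Matrix n n ℂ)) (hst : ∀ a ∈ A, aᴴ ∈ A)
    (hcen : ∀ a ∈ A, (∀ b ∈ A, a * b = b * a) → ∃ c : ℂ, a = c • (1 : Matrix n n ℂ))
    (hn : ∀ a ∈ A, h * a - a * h ∈ A) {F Fi : Matrix n n ℂ} (f1 : F * Fi = 1) (f2 : Fi * F = 1) {c : ℂ} (hc : c * c = 1)
    (hF : Fᵀ = c • F) (hAF : ∀ a ∈ A, Fi * aᵀ * F ∈ A) (hhF : Fi * hᵀ * F = -h) :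
    ∃ (d q : ℕ) (α : Fin d → ℝ) (β : Fin q → ℝ), 1 ≤ d ∧ 1 ≤ q ∧
      (∀ μ : ℝ, (E μ).rank = (Finset.univ.filter fun ik : Fin d × Fin q => α ik.1 + β ik.2 = μ).card) ∧
      (∀ μ : ℝ, (Finset.univ.filter fun i => α i = μ).card = (Finset.univ.filter fun i => α i = -μ).card) ∧
      (∀ μ : ℝ, (Finset.univ.filter fun k => β k = μ).card = (Finset.univ.filter fun k => β k = -μ).card) ∧
      ((∀ i j, α i = α j) → ∀ a ∈ A, h * a = a * h) ∧
      ((∀ k l, β k = β l) → ∀ T : Matrix n n ℂ, (∀ a ∈ A, T * a = a * T) → T * h = h * T) := by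
  classical
  obtain ⟨d, q, e, α, β, X, Y, k, hd, hq, x1, x2, hk, hm, k1, k2, ks⟩ := split S.hh A hst hcen hn
  have hFi : Fiᵀ = c • Fi := by
    have e1 : Fiᵀ * Fᵀ = 1 := by rw [← Matrix.transpose_mul, f1, Matrix.transpose_one]
    rw [hF, Matrix.mul_smul] at e1
    calc Fiᵀ = (Fiᵀ * F) * Fi := by rw [Matrix.mul_assoc, f1, Matrix.mul_one]
      _ = c • Fi := by
        have e2 : Fiᵀ * F = c • (1 : Matrix n n ℂ) := by
          rw [← e1, smul_smul, hc, one_smul]
        rw [e2, Matrix.smul_mul, Matrix.one_mul]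
  have τmul : ∀ x y : Matrix n n ℂ, Fi * (x * y)ᵀ * F = (Fi * yᵀ * F) * (Fi * xᵀ * F) := by
    intro x y
    rw [Matrix.transpose_mul]
    calc Fi * (yᵀ * xᵀ) * F = Fi * yᵀ * (1 : Matrix n n ℂ) * xᵀ * F := by
          rw [Matrix.mul_one]
          simp only [Matrix.mul_assoc]
      _ = _ := by
          rw [← f1]
          simp only [Matrix.mul_assoc]
  have ττ : ∀ x : Matrix n n ℂ, Fi * (Fi * xᵀ * F)ᵀ * F = x := by
    intro x
    rw [Matrix.transpose_mul, Matrix.transpose_mul, Matrix.transpose_transpose, hF, hFi]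
    simp only [Matrix.smul_mul, Matrix.mul_smul, smul_smul, hc, one_smul]
    calc Fi * (F * (x * Fi)) * F = (Fi * F) * x * (Fi * F) := by simp only [Matrix.mul_assoc]
      _ = x := by rw [f2, Matrix.one_mul, Matrix.mul_one]
  have τtr : ∀ x : Matrix n n ℂ, (Fi * xᵀ * F).trace = x.trace := by
    intro x
    rw [Matrix.trace_mul_comm, ← Matrix.mul_assoc, f1, Matrix.one_mul, Matrix.trace_transpose]
  obtain ⟨m, hmd⟩ : ∃ m : Matrix n n ℂ, m = h - k := ⟨_, rfl⟩
  rw [← hmd] at hm k2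
  have hkm : h = k + m := by rw [hmd]; abel
  -- `k` is skew
  have ktr : k.trace = 0 := by
    have e1 : k = X * diagonal (fun s => (α (e s).1 : ℂ)) * Y := by
      rw [← k1, Matrix.mul_assoc, x2, Matrix.mul_one]
    rw [e1, Matrix.trace_mul_comm, ← Matrix.mul_assoc, x1, Matrix.one_mul, Matrix.trace_diagonal,
      Equiv.sum_comp e (fun ik : Fin d × Fin q => (α ik.1 : ℂ)), Fintype.sum_prod_type]
    simp only [Finset.sum_const, Finset.card_univ, Fintype.card_fin]
    rw [← Finset.smul_sum]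
    have e2 : ∑ i, (α i : ℂ) = 0 := by
      rw [← Complex.ofReal_sum, ks]
      rfl
    rw [e2, smul_zero]
  have hTm : ∀ a ∈ A, (Fi * mᵀ * F) * a = a * (Fi * mᵀ * F) := by
    intro a ha
    have e1 := hm _ (hAF a ha)
    have e2 : Fi * (m * (Fi * aᵀ * F))ᵀ * F = Fi * ((Fi * aᵀ * F) * m)ᵀ * F := by rw [e1]
    rw [τmul m, τmul _ m, ττ] at e2
    exact e2.symm
  have hsum : Fi * kᵀ * F + k = -(Fi * mᵀ * F + m) := by
    have e1 := hhF
    rw [hkm, Matrix.transpose_add, Matrix.mul_add, Matrix.add_mul] at e1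
    have e2 : Fi * kᵀ * F = -(k + m) - Fi * mᵀ * F := by
      rw [← e1]
      abel
    rw [e2]
    abel
  have hk' : Fi * kᵀ * F = -k := by
    obtain ⟨c', hc'⟩ := hcen (Fi * kᵀ * F + k) (A.add_mem (hAF k hk) hk) (by
      intro b hb
      rw [hsum, Matrix.neg_mul, Matrix.mul_neg, Matrix.add_mul, Matrix.mul_add, hTm b hb, hm b hb])
    have e1 := congrArg Matrix.trace hc'
    rw [Matrix.trace_add, τtr, ktr, add_zero, Matrix.trace_smul, Matrix.trace_one, smul_eq_mul] at e1
    have e2 : c' = 0 := by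
      rcases mul_eq_zero.1 e1.symm with h0 | h0
      · exact h0
      · exfalso
        have : Fintype.card n ≠ 0 := Fintype.card_ne_zero
        exact this (by exact_mod_cast h0)
    rw [e2, zero_smul] at hc'
    exact eq_neg_of_add_eq_zero_left hc'
  have hm' : Fi * mᵀ * F = -m := by
    rw [hk', neg_add_cancel] at hsum
    exact eq_neg_of_add_eq_zero_left (neg_eq_zero.1 hsum.symm)
  refine ⟨d, q, α, β, hd, hq, ?_, ?_, ?_, ?_, ?_⟩
  · intro μ
    have e1 : h * X = X * diagonal (fun s => ((α (e s).1 + β (e s).2 : ℝ) : ℂ)) := by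
      rw [hkm, Matrix.add_mul, k1, k2, ← Matrix.mul_add, diagonal_add]
      congr 2
      funext s
      push_cast
      rfl
    rw [countN S x1 x2 e1, Finset.card_filter, Finset.card_filter]
    exact Equiv.sum_comp e (fun ik : Fin d × Fin q => if α ik.1 + β ik.2 = μ then 1 else 0)
  · intro μ
    have e1 := sym_of_skew (γ := fun s => α (e s).1) x1 x2 k1 f1 f2 hk' μ
    have e2 := card_fst e (fun i => α i = μ)
    have e3 := card_fst e (fun i => α i = -μ)
    rw [e2, e3] at e1
    exact Nat.eq_of_mul_eq_mul_left hq e1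
  · intro μ
    have e1 := sym_of_skew (γ := fun s => β (e s).2) x1 x2 k2 f1 f2 hm' μ
    have e2 := card_snd e (fun k => β k = μ)
    have e3 := card_snd e (fun k => β k = -μ)
    rw [e2, e3] at e1
    exact Nat.eq_of_mul_eq_mul_left hd e1
  · intro hα a ha
    have e1 : k = (α ⟨0, hd⟩ : ℂ) • (1 : Matrix n n ℂ) := by
      have e2 : diagonal (fun s => (α (e s).1 : ℂ)) = (α ⟨0, hd⟩ : ℂ) • (1 : Matrix n n ℂ) := by
        rw [← diagonal_one, ← diagonal_smul]
        congr 1
        funext s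
        rw [hα (e s).1 ⟨0, hd⟩]
        simp
      calc k = k * X * Y := by rw [Matrix.mul_assoc, x2, Matrix.mul_one]
        _ = _ := by rw [k1, e2, Matrix.mul_smul, Matrix.mul_one, Matrix.smul_mul, x2]
    rw [hkm, Matrix.add_mul, Matrix.mul_add, hm a ha, e1, Matrix.smul_mul, Matrix.mul_smul, Matrix.one_mul, Matrix.mul_one]
  · intro hβ T hT
    have e1 : m = (β ⟨0, hq⟩ : ℂ) • (1 : Matrix n n ℂ) := by
      have e2 : diagonal (fun s => (β (e s).2 : ℂ)) = (β ⟨0, hq⟩ : ℂ) • (1 : Matrix n n ℂ) := by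
        rw [← diagonal_one, ← diagonal_smul]
        congr 1
        funext s
        rw [hβ (e s).2 ⟨0, hq⟩]
        simp
      calc m = m * X * Y := by rw [Matrix.mul_assoc, x2, Matrix.mul_one]
        _ = _ := by rw [k2, e2, Matrix.mul_smul, Matrix.mul_one, Matrix.smul_mul, x2]
    rw [hkm, Matrix.add_mul, Matrix.mul_add, hT k hk, e1, Matrix.smul_mul, Matrix.mul_smul, Matrix.one_mul, Matrix.mul_one]

private lemma fsN {ι : Type*} [Fintype ι] (x : ι → ℤ) (F : ℤ → ℕ → ℕ) (h0 : ∀ i, F i 0 = 0)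
    (ha : ∀ i a b, F i (a + b) = F i a + F i b) :
    (∑ i, Finsupp.single (x i) 1 : ℤ →₀ ℕ).sum F = ∑ i, F (x i) 1 := by
  classical
  rw [← Finsupp.sum_finsetSum_index h0 ha]
  refine Finset.sum_congr rfl fun i _ => ?_
  rw [Finsupp.sum_single_index (h0 _)]

private lemma apN {ι : Type*} [Fintype ι] (x : ι → ℤ) (j : ℤ) :
    (∑ i, Finsupp.single (x i) 1 : ℤ →₀ ℕ) j = (Finset.univ.filter fun i => x i = j).card := by
  classical
  rw [Finsupp.finsetSum_apply, Finset.card_filter]
  refine Finset.sum_congr rfl fun i _ => ?_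
  rw [Finsupp.single_apply]

private lemma supN {ι : Type*} [Fintype ι] (x : ι → ℤ) (h : (∑ i, Finsupp.single (x i) 1 : ℤ →₀ ℕ).support.card ≤ 1)
    (i j : ι) : x i = x j := by
  classical
  have hm : ∀ i, x i ∈ (∑ i, Finsupp.single (x i) 1 : ℤ →₀ ℕ).support := by
    intro i
    rw [Finsupp.mem_support_iff, apN]
    exact Finset.card_ne_zero.2 ⟨i, by simp⟩
  exact Finset.card_le_one.1 h _ (hm i) _ (hm j)

/-- A normalised algebra when the multiplicities are indecomposable: `h` commutes with `A` or with its commutant. -/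
theorem dich [Nonempty n] (S : Spec h E Λ) (A : Subalgebra ℂ (Matrix n n ℂ)) (hst : ∀ a ∈ A, aᴴ ∈ A)
    (hcen : ∀ a ∈ A, (∀ b ∈ A, a * b = b * a) → ∃ c : ℂ, a = c • (1 : Matrix n n ℂ))
    (hn : ∀ a ∈ A, h * a - a * h ∈ A) {F Fi : Matrix n n ℂ} (f1 : F * Fi = 1) (f2 : Fi * F = 1) {c : ℂ} (hc : c * c = 1)
    (hF : Fᵀ = c • F) (hAF : ∀ a ∈ A, Fi * aᵀ * F ∈ A) (hhF : Fi * hᵀ * F = -h) (w : ℤ)
    (hw : ∀ μ : ℝ, E μ ≠ 0 → ∃ p : ℤ, μ = 2 * p - w) (hI : Indec w (fun p : ℤ => (E (2 * p - w)).rank)) :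
    (∀ a ∈ A, h * a = a * h) ∨ (∀ T : Matrix n n ℂ, (∀ a ∈ A, T * a = a * T) → T * h = h * T) := by
  classical
  obtain ⟨d, q, α, β, hd, hq, hr, sα, sβ, cα, cβ⟩ := fac S A hst hcen hn f1 f2 hc hF hAF hhF
  obtain ⟨i0⟩ : Nonempty (Fin d) := ⟨⟨0, by omega⟩⟩
  obtain ⟨k0⟩ : Nonempty (Fin q) := ⟨⟨0, by omega⟩⟩
  have hint : ∀ i k, ∃ j : ℤ, α i + β k = 2 * j - w := by
    intro i k
    apply hw
    intro h0
    have := hr (α i + β k)
    rw [h0, rank_zero] at this
    have h3 := Finset.card_eq_zero.1 this.symm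
    have h4 : (i, k) ∈ (Finset.univ.filter fun j : Fin d × Fin q => α j.1 + β j.2 = α i + β k) := by simp
    rw [h3] at h4
    simp at h4
  choose z hz using hint
  -- `α i0` is an integer
  obtain ⟨i1, hi1⟩ : ∃ i1, α i1 = -α i0 := by
    have h1 : (Finset.univ.filter fun i => α i = α i0).card ≠ 0 := Finset.card_ne_zero.2 ⟨i0, by simp⟩
    rw [sα] at h1
    obtain ⟨i1, h2⟩ := Finset.card_ne_zero.1 h1
    exact ⟨i1, (Finset.mem_filter.1 h2).2⟩
  obtain ⟨a, ha⟩ : ∃ a : ℤ, α i0 = -a := by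
    refine ⟨z i1 k0 - z i0 k0, ?_⟩
    have a1 := hz i1 k0
    have a2 := hz i0 k0
    push_cast
    linarith
  obtain ⟨x, hx⟩ : ∃ x : Fin d → ℤ, ∀ i, x i = z i k0 - z i0 k0 := ⟨_, fun i => rfl⟩
  obtain ⟨y, hy⟩ : ∃ y : Fin q → ℤ, ∀ k, y k = z i0 k := ⟨_, fun i => rfl⟩
  have hxα : ∀ i, α i = 2 * x i - a := by
    intro i
    have a1 := hz i k0
    have a2 := hz i0 k0
    rw [hx]
    push_cast
    linarith
  have hyβ : ∀ k, β k = 2 * y k - (w - a : ℤ) := by
    intro k
    have a2 := hz i0 k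
    rw [hy]
    push_cast
    linarith
  have hcx : ∀ j : ℤ, (Finset.univ.filter fun i => x i = j).card = (Finset.univ.filter fun i => α i = 2 * (j : ℝ) - a).card := by
    intro j
    congr 1
    ext i
    simp only [Finset.mem_filter, Finset.mem_univ, true_and]
    rw [hxα]
    constructor
    · intro h1
      rw [h1]
    · intro h1
      have : (x i : ℝ) = j := by linarith
      exact_mod_cast this
  have hcy : ∀ j : ℤ, (Finset.univ.filter fun k => y k = j).card =
      (Finset.univ.filter fun k => β k = 2 * (j : ℝ) - (w - a : ℤ)).card := by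
    intro j
    congr 1
    ext i
    simp only [Finset.mem_filter, Finset.mem_univ, true_and]
    rw [hyβ]
    constructor
    · intro h1
      rw [h1]
    · intro h1
      have : (y i : ℝ) = j := by linarith
      exact_mod_cast this
  have hfin := hI a (∑ i, Finsupp.single (x i) 1) (∑ k, Finsupp.single (y k) 1) (by
      intro j
      rw [apN, apN, hcx, hcx, sα]
      congr 1
      ext i
      simp only [Finset.mem_filter, Finset.mem_univ, true_and]
      push_cast
      constructor <;> intro h1 <;> linarith) (by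
      intro j
      rw [apN, apN, hcy, hcy, sβ]
      congr 1
      ext i
      simp only [Finset.mem_filter, Finset.mem_univ, true_and]
      push_cast
      constructor <;> intro h1 <;> linarith) (by
      intro p
      show (E (2 * p - w)).rank = _
      rw [hr, fsN x (fun i a => a * (∑ k, Finsupp.single (y k) 1 : ℤ →₀ ℕ) (p - i)) (fun i => zero_mul _)
        (fun i a b => add_mul _ _ _), Finset.card_filter, Fintype.sum_prod_type]
      refine Finset.sum_congr rfl fun i _ => ?_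
      rw [one_mul, apN, Finset.card_filter]
      refine Finset.sum_congr rfl fun k _ => ?_
      have : (α i + β k = 2 * p - w) ↔ (y k = p - x i) := by
        rw [hxα, hyβ]
        push_cast
        constructor
        · intro h1
          have : (y k : ℝ) = ((p - x i : ℤ) : ℝ) := by
            push_cast
            linarith
          exact_mod_cast this
        · intro h1
          have : (y k : ℝ) = ((p - x i : ℤ) : ℝ) := by rw [h1]
          push_cast at this
          linarith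
      simp only [this])
  rcases hfin with h1 | h1
  · left
    refine cα fun i j => ?_
    rw [hxα, hxα, supN x h1 i j]
  · right
    refine cβ fun k l => ?_
    rw [hyβ, hyβ, supN y h1 k l]

end NI
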