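import Pool.Agent.Helper71.OW.Ind

/-!
Project NI (MP_b8862a_ag): a self-adjoint algebra of matrices with trivial centre that is normalised by a
self-adjoint `h` splits the space and `h`. The lemmas `diagN`, `countN`, `splitN` are those of `Helper71/OW/Ind`.
-/

open Matrix MH

namespace NI

variable {n : Type*} [Fintype n] [DecidableEq n]
variable {h : Matrix n n ℂ} {E : ℝ → Matrix n n ℂ} {Λ : Finset ℝ} {L : Submodule ℂ (Matrix n n ℂ)}

private lemma diagN {ι : Type*} [Fintype ι] [DecidableEq ι] {a : Matrix ι ι ℂ} (ha : aᴴ = a) :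
    ∃ (V : Matrix ι ι ℂ) (α : ι → ℝ), Vᴴ * V = 1 ∧ V * Vᴴ = 1 ∧ a * V = V * diagonal (fun i => (α i : ℂ)) := by
  have hA : a.IsHermitian := ha
  refine ⟨(hA.eigenvectorUnitary : Matrix ι ι ℂ), hA.eigenvalues, ?_, ?_, ?_⟩
  · rw [← star_eq_conjTranspose]
    exact Unitary.coe_star_mul_self hA.eigenvectorUnitary
  · rw [← star_eq_conjTranspose]
    exact Unitary.coe_mul_star_self hA.eigenvectorUnitary
  · have h1 := hA.conjStarAlgAut_star_eigenvectorUnitary
    rw [Unitary.conjStarAlgAut_star_apply] at h1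
    have h2 : diagonal (fun i => ((hA.eigenvalues i : ℝ) : ℂ)) =
        star (hA.eigenvectorUnitary : Matrix ι ι ℂ) * a * (hA.eigenvectorUnitary : Matrix ι ι ℂ) := h1.symm
    have h3 : (hA.eigenvectorUnitary : Matrix ι ι ℂ) * star (hA.eigenvectorUnitary : Matrix ι ι ℂ) = 1 :=
      Unitary.coe_mul_star_self hA.eigenvectorUnitary
    rw [h2, ← Matrix.mul_assoc, ← Matrix.mul_assoc, h3, Matrix.one_mul]

theorem countN {m : Type*} [Fintype m] [DecidableEq m] (S : Spec h E Λ) {X : Matrix n m ℂ} {Y : Matrix m n ℂ}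
    (h1 : Y * X = 1) (h2 : X * Y = 1) {γ : m → ℝ} (h3 : h * X = X * diagonal (fun j => (γ j : ℂ))) (μ : ℝ) :
    (E μ).rank = (Finset.univ.filter fun j => γ j = μ).card := by
  have c1 : ∀ ν : ℝ, ∀ i j, γ j ≠ ν → (E ν * X) i j = 0 := by
    intro ν i j hj
    have e1 : E ν * (h * X) = (ν : ℂ) • (E ν * X) := by rw [← Matrix.mul_assoc, S.mul_h, Matrix.smul_mul]
    rw [h3, ← Matrix.mul_assoc] at e1
    have e2 := congrFun (congrFun e1 i) j
    rw [mul_diagonal, Matrix.smul_apply, smul_eq_mul] at e2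
    have e3 : (E ν * X) i j * ((γ j : ℂ) - ν) = 0 := by linear_combination e2
    rcases mul_eq_zero.1 e3 with h | h
    · exact h
    · exact absurd (by exact_mod_cast sub_eq_zero.1 h) hj
  obtain ⟨P, hP⟩ : ∃ P : Matrix m m ℂ, P = diagonal (fun j => if γ j = μ then (1 : ℂ) else 0) := ⟨_, rfl⟩
  have c2 : E μ * X * P = E μ * X := by
    ext i j
    rw [hP, mul_diagonal]
    split_ifs with hj
    · rw [mul_one]
    · rw [mul_zero, c1 μ i j hj]
  have c3 : ∀ ν, ν ≠ μ → E ν * X * P = 0 := by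
    intro ν hν
    ext i j
    rw [hP, mul_diagonal, Matrix.zero_apply]
    split_ifs with hj
    · rw [c1 ν i j (by rw [hj]; exact hν.symm), zero_mul]
    · rw [mul_zero]
  have c4 : X * P = E μ * X * P := by
    have e1 : X * P = ∑ ν ∈ Λ, E ν * X * P := by
      rw [← Matrix.sum_mul, ← Matrix.sum_mul, S.sum, Matrix.one_mul]
    rw [e1]
    by_cases hμ : μ ∈ Λ
    · exact Finset.sum_eq_single μ (fun ν _ hν => c3 ν hν) (fun h' => absurd hμ h')
    · rw [S.supp μ hμ, Matrix.zero_mul, Matrix.zero_mul]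
      exact Finset.sum_eq_zero fun ν hν => c3 ν (fun h' => hμ (h' ▸ hν))
  have c5 : E μ = X * P * Y := by
    rw [c4, c2, Matrix.mul_assoc, h2, Matrix.mul_one]
  have hr : ((E μ).rank : ℂ) = (E μ).trace := rank_eq_trace (by rw [S.mul, if_pos rfl])
  have ht : (E μ).trace = ((Finset.univ.filter fun j => γ j = μ).card : ℂ) := by
    rw [c5, trace_mul_comm, ← Matrix.mul_assoc, h1, Matrix.one_mul, hP, trace_diagonal, Finset.sum_boole]
  rw [ht] at hr
  exact_mod_cast hr

private lemma entLN {d q : ℕ} (H : Matrix (Fin d × Fin q) (Fin d × Fin q) ℂ) (C : Matrix (Fin d) (Fin d) ℂ)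
    (i j : Fin d) (k l : Fin q) :
    (H * kroneckerMap (· * ·) C (1 : Matrix (Fin q) (Fin q) ℂ)) (i, k) (j, l) = ∑ p, H (i, k) (p, l) * C p j := by
  rw [Matrix.mul_apply, Fintype.sum_prod_type]
  refine Finset.sum_congr rfl fun p _ => ?_
  rw [Finset.sum_eq_single l]
  · rw [kroneckerMap_apply, Matrix.one_apply_eq, mul_one]
  · intro r _ hr
    rw [kroneckerMap_apply, Matrix.one_apply_ne hr, mul_zero, mul_zero]
  · intro hl
    exact absurd (Finset.mem_univ l) hl

private lemma entRN {d q : ℕ} (H : Matrix (Fin d × Fin q) (Fin d × Fin q) ℂ) (C : Matrix (Fin d) (Fin d) ℂ)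
    (i j : Fin d) (k l : Fin q) :
    (kroneckerMap (· * ·) C (1 : Matrix (Fin q) (Fin q) ℂ) * H) (i, k) (j, l) = ∑ p, C i p * H (p, k) (j, l) := by
  rw [Matrix.mul_apply, Fintype.sum_prod_type]
  refine Finset.sum_congr rfl fun p _ => ?_
  rw [Finset.sum_eq_single k]
  · rw [kroneckerMap_apply, Matrix.one_apply_eq, mul_one]
  · intro r _ hr
    rw [kroneckerMap_apply, Matrix.one_apply_ne hr.symm, mul_zero, zero_mul]
  · intro hl
    exact absurd (Finset.mem_univ k) hl

/-- an operator which normalises `M_d ⊗ 1` is `a ⊗ 1 + 1 ⊗ b` -/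
private lemma splitN {d q : ℕ} (i0 : Fin d) (k0 : Fin q) (H : Matrix (Fin d × Fin q) (Fin d × Fin q) ℂ)
    (hH : ∀ C : Matrix (Fin d) (Fin d) ℂ, ∃ D : Matrix (Fin d) (Fin d) ℂ,
      H * kroneckerMap (· * ·) C (1 : Matrix (Fin q) (Fin q) ℂ) - kroneckerMap (· * ·) C (1 : Matrix (Fin q) (Fin q) ℂ) * H =
        kroneckerMap (· * ·) D (1 : Matrix (Fin q) (Fin q) ℂ)) :
    H = kroneckerMap (· * ·) (Matrix.of fun i p => H (i, k0) (p, k0) - if i = p then H (i0, k0) (i0, k0) else 0)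
        (1 : Matrix (Fin q) (Fin q) ℂ) +
      kroneckerMap (· * ·) (1 : Matrix (Fin d) (Fin d) ℂ) (Matrix.of fun k l => H (i0, k) (i0, l)) := by
  have key : ∀ p r i j : Fin d, ∃ s : ℂ, ∀ k l : Fin q,
      (if j = r then H (i, k) (p, l) else 0) - (if i = p then H (r, k) (j, l) else 0) = if k = l then s else 0 := by
    intro p r i j
    obtain ⟨D, hD⟩ := hH (Matrix.of fun a b => if a = p ∧ b = r then 1 else 0)
    refine ⟨D i j, fun k l => ?_⟩
    have e1 := congrFun (congrFun hD (i, k)) (j, l)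
    rw [Matrix.sub_apply, entLN, entRN, kroneckerMap_apply] at e1
    have e2 : ∑ x, H (i, k) (x, l) * (Matrix.of fun a b => if a = p ∧ b = r then (1 : ℂ) else 0) x j =
        if j = r then H (i, k) (p, l) else 0 := by
      rw [Finset.sum_eq_single p]
      · simp only [of_apply, true_and]
        split_ifs <;> simp
      · intro x _ hx
        simp only [of_apply, hx, false_and, if_false, mul_zero]
      · intro hp
        exact absurd (Finset.mem_univ p) hp
    have e3 : ∑ x, (Matrix.of fun a b => if a = p ∧ b = r then (1 : ℂ) else 0) i x * H (x, k) (j, l) =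
        if i = p then H (r, k) (j, l) else 0 := by
      rw [Finset.sum_eq_single r]
      · simp only [of_apply, and_true]
        split_ifs <;> simp
      · intro x _ hx
        simp only [of_apply, hx, and_false, if_false, zero_mul]
      · intro hp
        exact absurd (Finset.mem_univ r) hp
    rw [e2, e3] at e1
    rw [e1, Matrix.one_apply]
    split_ifs <;> simp
  ext ⟨i, k⟩ ⟨p, l⟩
  rw [Matrix.add_apply, kroneckerMap_apply, kroneckerMap_apply, of_apply, of_apply, Matrix.one_apply, Matrix.one_apply]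
  by_cases hip : i = p
  · subst hip
    obtain ⟨s, hs⟩ := key i i0 i i0
    have f1 := hs k l
    have f2 := hs k0 k0
    simp only [if_true] at f1 f2
    simp only [if_true]
    split_ifs at f1 ⊢ with hkl
    · rw [mul_one, one_mul, f2, ← f1]
      ring
    · rw [mul_zero, one_mul, zero_add]
      linear_combination f1
  · obtain ⟨s, hs⟩ := key p p i p
    have f1 := hs k l
    have f2 := hs k0 k0
    simp only [if_true, hip, if_false, sub_zero] at f1 f2
    simp only [hip, if_false, sub_zero, zero_mul, add_zero]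
    rw [f1, f2]
    split_ifs <;> simp

/-- the matrix `M` in the coordinates `U`, `e` -/
noncomputable def emb {d q : ℕ} (U : Matrix n n ℂ) (e : n ≃ Fin d × Fin q)
    (M : Matrix (Fin d × Fin q) (Fin d × Fin q) ℂ) : Matrix n n ℂ := U * M.submatrix e e * Uᴴ

section emb

variable {d q : ℕ} {U : Matrix n n ℂ} {e : n ≃ Fin d × Fin q}

theorem emb_mul (h1 : Uᴴ * U = 1) (M N : Matrix (Fin d × Fin q) (Fin d × Fin q) ℂ) :
    emb U e M * emb U e N = emb U e (M * N) := by
  unfold emb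
  rw [← submatrix_mul_equiv M N e e e]
  calc U * M.submatrix e e * Uᴴ * (U * N.submatrix e e * Uᴴ) =
      U * M.submatrix e e * (Uᴴ * U) * N.submatrix e e * Uᴴ := by simp only [Matrix.mul_assoc]
    _ = U * (M.submatrix e e * N.submatrix e e) * Uᴴ := by rw [h1, Matrix.mul_one]; simp only [Matrix.mul_assoc]

theorem emb_add (M N : Matrix (Fin d × Fin q) (Fin d × Fin q) ℂ) : emb U e (M + N) = emb U e M + emb U e N := by
  unfold emb
  rw [submatrix_add, Pi.add_apply, Pi.add_apply, Matrix.mul_add, Matrix.add_mul]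

theorem emb_smul (c : ℂ) (M : Matrix (Fin d × Fin q) (Fin d × Fin q) ℂ) : emb U e (c • M) = c • emb U e M := by
  unfold emb
  rw [submatrix_smul, Pi.smul_apply, Pi.smul_apply, Matrix.mul_smul, Matrix.smul_mul]

theorem emb_one (h2 : U * Uᴴ = 1) : emb U e 1 = 1 := by
  unfold emb
  rw [submatrix_one_equiv, Matrix.mul_one, h2]

theorem emb_coord (h2 : U * Uᴴ = 1) (T : Matrix n n ℂ) : emb U e ((Uᴴ * T * U).submatrix e.symm e.symm) = T := by
  unfold emb
  rw [submatrix_submatrix, Equiv.symm_comp_self, submatrix_id_id]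
  calc U * (Uᴴ * T * U) * Uᴴ = (U * Uᴴ) * T * (U * Uᴴ) := by simp only [Matrix.mul_assoc]
    _ = T := by rw [h2, Matrix.one_mul, Matrix.mul_one]

theorem coord_emb (h1 : Uᴴ * U = 1) (M : Matrix (Fin d × Fin q) (Fin d × Fin q) ℂ) :
    Uᴴ * emb U e M * U = M.submatrix e e := by
  unfold emb
  calc Uᴴ * (U * M.submatrix e e * Uᴴ) * U = (Uᴴ * U) * M.submatrix e e * (Uᴴ * U) := by
        simp only [Matrix.mul_assoc]
    _ = M.submatrix e e := by rw [h1, Matrix.one_mul, Matrix.mul_one]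

theorem emb_inj (h1 : Uᴴ * U = 1) {M N : Matrix (Fin d × Fin q) (Fin d × Fin q) ℂ} (h : emb U e M = emb U e N) : M = N := by
  have h2 := congrArg (fun T => (Uᴴ * T * U).submatrix e.symm e.symm) h
  simp only [coord_emb h1, submatrix_submatrix, Equiv.self_comp_symm, submatrix_id_id] at h2
  exact h2

theorem emb_star (M : Matrix (Fin d × Fin q) (Fin d × Fin q) ℂ) : (emb U e M)ᴴ = emb U e Mᴴ := by
  unfold emb
  rw [conjTranspose_mul, conjTranspose_mul, conjTranspose_conjTranspose, conjTranspose_submatrix]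
  simp only [Matrix.mul_assoc]

end emb

/-- A self-adjoint algebra `A` with trivial centre that is normalised by the self-adjoint `h`: `h` is the sum of an
element `k` of `A` and of an element of the commutant of `A`, and these can be diagonalised together. -/
theorem split [Nonempty n] (hh : hᴴ = h) (A : Subalgebra ℂ (Matrix n n ℂ)) (hst : ∀ a ∈ A, aᴴ ∈ A)
    (hcen : ∀ a ∈ A, (∀ b ∈ A, a * b = b * a) → ∃ c : ℂ, a = c • (1 : Matrix n n ℂ))
    (hn : ∀ a ∈ A, h * a - a * h ∈ A) :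
    ∃ (d q : ℕ) (e : n ≃ Fin d × Fin q) (α : Fin d → ℝ) (β : Fin q → ℝ) (X Y k : Matrix n n ℂ), 1 ≤ d ∧ 1 ≤ q ∧
      Y * X = 1 ∧ X * Y = 1 ∧ k ∈ A ∧ (∀ a ∈ A, (h - k) * a = a * (h - k)) ∧
      k * X = X * diagonal (fun s => (α (e s).1 : ℂ)) ∧ (h - k) * X = X * diagonal (fun s => (β (e s).2 : ℂ)) ∧
      ∑ i, α i = 0 := by
  classical
  obtain ⟨d, q, e, U, hd, hq, h1, h2, hA⟩ := OW.coord A hst hcen
  have hA' : ∀ T : Matrix n n ℂ, T ∈ A ↔ ∃ C : Matrix (Fin d) (Fin d) ℂ,
      T = emb U e (kroneckerMap (· * ·) C (1 : Matrix (Fin q) (Fin q) ℂ)) := by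
    intro T
    rw [hA]
    constructor
    · rintro ⟨C, hC⟩
      refine ⟨C, ?_⟩
      rw [← emb_coord (e := e) h2 T, hC, submatrix_submatrix, Equiv.self_comp_symm, submatrix_id_id]
    · rintro ⟨C, rfl⟩
      exact ⟨C, coord_emb h1 _⟩
  obtain ⟨i0⟩ : Nonempty (Fin d) := ⟨⟨0, by omega⟩⟩
  obtain ⟨k0⟩ : Nonempty (Fin q) := ⟨⟨0, by omega⟩⟩
  obtain ⟨H, hH⟩ : ∃ H : Matrix (Fin d × Fin q) (Fin d × Fin q) ℂ, emb U e H = h := ⟨_, emb_coord h2 h⟩
  have hHs : Hᴴ = H := by
    apply emb_inj (e := e) h1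
    rw [← emb_star, hH, hh]
  have hsp := splitN i0 k0 H (by
    intro C
    obtain ⟨D, hD⟩ := (hA' _).1 (hn _ ((hA' _).2 ⟨C, rfl⟩))
    refine ⟨D, ?_⟩
    apply emb_inj (e := e) h1
    rw [← hD, ← hH, emb_mul h1, emb_mul h1, sub_eq_add_neg, emb_add, ← neg_one_smul ℂ, emb_smul, neg_one_smul,
      ← sub_eq_add_neg])
  obtain ⟨a, ha⟩ : ∃ a : Matrix (Fin d) (Fin d) ℂ,
    a = Matrix.of fun i p => H (i, k0) (p, k0) - if i = p then H (i0, k0) (i0, k0) else 0 := ⟨_, rfl⟩
  obtain ⟨b, hb⟩ : ∃ b : Matrix (Fin q) (Fin q) ℂ, b = Matrix.of fun k l => H (i0, k) (i0, l) := ⟨_, rfl⟩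
  rw [← ha, ← hb] at hsp
  have hent : ∀ x y, star (H x y) = H y x := by
    intro x y
    have := congrFun (congrFun hHs y) x
    rwa [conjTranspose_apply] at this
  have has : aᴴ = a := by
    ext i p
    rw [conjTranspose_apply, ha, of_apply, of_apply, star_sub, hent]
    congr 1
    by_cases hip : i = p
    · subst hip
      rw [if_pos rfl, hent]
    · rw [if_neg hip, if_neg (Ne.symm hip), star_zero]
  have hbs : bᴴ = b := by
    ext k l
    rw [conjTranspose_apply, hb, of_apply, of_apply, hent]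
  obtain ⟨V, α, v1, v2, v3⟩ := diagN has
  obtain ⟨W, β, w1, w2, w3⟩ := diagN hbs
  -- the two parts
  obtain ⟨t, ht⟩ : ∃ t : ℝ, t = (∑ i, α i) / d := ⟨_, rfl⟩
  obtain ⟨ka, hka⟩ : ∃ ka : Matrix n n ℂ, ka = emb U e (kroneckerMap (· * ·) a (1 : Matrix (Fin q) (Fin q) ℂ)) := ⟨_, rfl⟩
  obtain ⟨kb, hkb⟩ : ∃ kb : Matrix n n ℂ, kb = emb U e (kroneckerMap (· * ·) (1 : Matrix (Fin d) (Fin d) ℂ) b) := ⟨_, rfl⟩
  have hab : h = ka + kb := by
    rw [← hH, hsp, emb_add, hka, hkb]
  have hkaA : ka ∈ A := (hA' _).2 ⟨a, hka⟩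
  have hkbA : ∀ T ∈ A, kb * T = T * kb := by
    intro T hT
    obtain ⟨C, rfl⟩ := (hA' _).1 hT
    have z1 := mul_kronecker_mul (1 : Matrix (Fin d) (Fin d) ℂ) C b (1 : Matrix (Fin q) (Fin q) ℂ)
    have z2 := mul_kronecker_mul C (1 : Matrix (Fin d) (Fin d) ℂ) (1 : Matrix (Fin q) (Fin q) ℂ) b
    rw [Matrix.one_mul, Matrix.mul_one] at z1 z2
    rw [hkb, emb_mul h1, emb_mul h1]
    congr 1
    exact z1.symm.trans z2
  obtain ⟨Z, hZ⟩ : ∃ Z : Matrix (Fin d × Fin q) (Fin d × Fin q) ℂ, Z = kroneckerMap (· * ·) V W := ⟨_, rfl⟩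
  obtain ⟨Zi, hZi⟩ : ∃ Zi : Matrix (Fin d × Fin q) (Fin d × Fin q) ℂ, Zi = kroneckerMap (· * ·) Vᴴ Wᴴ := ⟨_, rfl⟩
  have z1 : Zi * Z = 1 := by
    have := mul_kronecker_mul Vᴴ V Wᴴ W
    rw [v1, w1, one_kronecker_one] at this
    rw [hZ, hZi]
    exact this.symm
  have z2 : Z * Zi = 1 := by
    have := mul_kronecker_mul V Vᴴ W Wᴴ
    rw [v2, w2, one_kronecker_one] at this
    rw [hZ, hZi]
    exact this.symm
  have dg : ∀ (γ : Fin d × Fin q → ℂ), emb U e (diagonal γ) * U = U * diagonal (fun s => γ (e s)) := by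
    intro γ
    unfold emb
    rw [Matrix.mul_assoc, h1, Matrix.mul_one, submatrix_diagonal_equiv]
    rfl
  have y1 : kroneckerMap (· * ·) a (1 : Matrix (Fin q) (Fin q) ℂ) * Z = Z * diagonal (fun ik => (α ik.1 : ℂ)) := by
    have z1 := mul_kronecker_mul a V (1 : Matrix (Fin q) (Fin q) ℂ) W
    have z3 := mul_kronecker_mul V (diagonal (fun i => (α i : ℂ))) W (1 : Matrix (Fin q) (Fin q) ℂ)
    rw [v3, Matrix.one_mul] at z1
    rw [Matrix.mul_one] at z3
    have z5 : diagonal (fun ik : Fin d × Fin q => (α ik.1 : ℂ)) =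
        kroneckerMap (· * ·) (diagonal (fun i => (α i : ℂ))) (1 : Matrix (Fin q) (Fin q) ℂ) := by
      ext ⟨i, k⟩ ⟨j, l⟩
      rw [kroneckerMap_apply, diagonal_apply, diagonal_apply, Matrix.one_apply]
      by_cases hij : i = j
      · by_cases hkl : k = l
        · simp [hij, hkl]
        · simp [hij, hkl]
      · by_cases hkl : k = l
        · simp [hij, hkl]
        · simp [hij, hkl]
    rw [hZ, z5]
    exact z1.symm.trans z3
  have y2 : kroneckerMap (· * ·) (1 : Matrix (Fin d) (Fin d) ℂ) b * Z = Z * diagonal (fun ik => (β ik.2 : ℂ)) := by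
    have z2 := mul_kronecker_mul (1 : Matrix (Fin d) (Fin d) ℂ) V b W
    have z4 := mul_kronecker_mul V (1 : Matrix (Fin d) (Fin d) ℂ) W (diagonal (fun i => (β i : ℂ)))
    rw [w3, Matrix.one_mul] at z2
    rw [Matrix.mul_one] at z4
    have z5 : diagonal (fun ik : Fin d × Fin q => (β ik.2 : ℂ)) =
        kroneckerMap (· * ·) (1 : Matrix (Fin d) (Fin d) ℂ) (diagonal (fun i => (β i : ℂ))) := by
      ext ⟨i, k⟩ ⟨j, l⟩
      rw [kroneckerMap_apply, diagonal_apply, diagonal_apply, Matrix.one_apply]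
      by_cases hij : i = j
      · by_cases hkl : k = l
        · simp [hij, hkl]
        · simp [hij, hkl]
      · by_cases hkl : k = l
        · simp [hij, hkl]
        · simp [hij, hkl]
    rw [hZ, z5]
    exact z2.symm.trans z4
  have key : ∀ (M : Matrix (Fin d × Fin q) (Fin d × Fin q) ℂ) (γ : Fin d × Fin q → ℂ), M * Z = Z * diagonal γ →
      emb U e M * (emb U e Z * U) = (emb U e Z * U) * diagonal (fun s => γ (e s)) := by
    intro M γ hM
    rw [← Matrix.mul_assoc, emb_mul h1, hM, ← emb_mul h1, Matrix.mul_assoc, dg, Matrix.mul_assoc]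
  have hd0 : (d : ℝ) ≠ 0 := by
    have : 0 < d := hd
    positivity
  refine ⟨d, q, e, fun i => α i - t, fun k => β k + t, emb U e Z * U, Uᴴ * emb U e Zi, ka - (t : ℂ) • 1, hd, hq,
    ?_, ?_, ?_, ?_, ?_, ?_, ?_⟩
  · calc Uᴴ * emb U e Zi * (emb U e Z * U) = Uᴴ * (emb U e Zi * emb U e Z) * U := by simp only [Matrix.mul_assoc]
      _ = 1 := by rw [emb_mul h1, z1, emb_one h2, Matrix.mul_one, h1]
  · calc emb U e Z * U * (Uᴴ * emb U e Zi) = emb U e Z * (U * Uᴴ) * emb U e Zi := by simp only [Matrix.mul_assoc]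
      _ = 1 := by rw [h2, Matrix.mul_one, emb_mul h1, z2, emb_one h2]
  · exact A.sub_mem hkaA (A.smul_mem A.one_mem _)
  · intro T hT
    have e1 : h - (ka - (t : ℂ) • (1 : Matrix n n ℂ)) = kb + (t : ℂ) • 1 := by
      rw [hab]
      abel
    rw [e1, Matrix.add_mul, Matrix.mul_add, hkbA T hT, Matrix.smul_mul, Matrix.mul_smul, Matrix.one_mul, Matrix.mul_one]
  · have e1 := key _ _ y1
    rw [← hka] at e1
    rw [Matrix.sub_mul, e1, Matrix.smul_mul, Matrix.one_mul]
    have e2 : (fun s => ((α (e s).1 - t : ℝ) : ℂ)) = fun s => (α (e s).1 : ℂ) - (t : ℂ) := by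
      funext s
      push_cast
      rfl
    rw [e2]
    have e3 : diagonal (fun s => (α (e s).1 : ℂ) - (t : ℂ)) =
        diagonal (fun s => (α (e s).1 : ℂ)) - (t : ℂ) • (1 : Matrix n n ℂ) := by
      rw [← diagonal_one, ← diagonal_smul, diagonal_sub]
      congr 1
      funext s
      simp
    rw [e3, Matrix.mul_sub, Matrix.mul_smul, Matrix.mul_one]
  · have e1 := key _ _ y2
    rw [← hkb] at e1
    have e0 : h - (ka - (t : ℂ) • (1 : Matrix n n ℂ)) = kb + (t : ℂ) • 1 := by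
      rw [hab]
      abel
    rw [e0, Matrix.add_mul, e1, Matrix.smul_mul, Matrix.one_mul]
    have e2 : (fun s => ((β (e s).2 + t : ℝ) : ℂ)) = fun s => (β (e s).2 : ℂ) + (t : ℂ) := by
      funext s
      push_cast
      rfl
    rw [e2]
    have e3 : diagonal (fun s => (β (e s).2 : ℂ) + (t : ℂ)) =
        diagonal (fun s => (β (e s).2 : ℂ)) + (t : ℂ) • (1 : Matrix n n ℂ) := by
      rw [← diagonal_one, ← diagonal_smul, diagonal_add]
      congr 1
      funext s
      simp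
    rw [e3, Matrix.mul_add, Matrix.mul_smul, Matrix.mul_one]
  · rw [Finset.sum_sub_distrib, Finset.sum_const, Finset.card_univ, Fintype.card_fin, nsmul_eq_mul, ht,
      mul_div_cancel₀ _ hd0, sub_self]

end NI
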