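import Pool.Agent.Helper55.NI.Nrm
import Pool.Agent.Helper2.NT.Neat

/-!
Project NI (MP_b8862a_ag): the groups over a monodromy group have the same Tate tensors.
-/

set_option linter.unusedSectionVars false

open Matrix

namespace MH

variable {n : Type*} [Fintype n] [DecidableEq n]

section op

variable {R : Type*} [CommRing R]

/-- conjugation of a matrix -/
def cjL (g g' : Matrix n n R) : Matrix n n R →ₗ[R] Matrix n n R where
  toFun Z := g * Z * g'
  map_add' := by
    intro a b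
    rw [mul_add, add_mul]
  map_smul' := by
    intro c a
    rw [mul_smul_comm, smul_mul_assoc]
    rfl

theorem act_tE38 (g g' : Matrix n n R) (π : Matrix n n R →ₗ[R] Matrix n n R) :
    actF (slot 2 2 g g') (tE38 π) = tE38 (cjL g g' ∘ₗ π ∘ₗ cjL g' g) := by
  rw [tE38_eq π, actF_sum]
  have h0 : ∀ k, actF (slot 2 2 g g') (∑ l, t22 (π (Matrix.single l k 1)) (Matrix.single k l 1)) =
      ∑ l, t22 (g * π (Matrix.single l k 1) * g') (g * Matrix.single k l 1 * g') := by
    intro k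
    rw [actF_sum]
    refine Finset.sum_congr rfl fun l _ => ?_
    rw [slot22]
  rw [Finset.sum_congr rfl fun k _ => h0 k]
  funext i
  have h1 : tE38 (cjL g g' ∘ₗ π ∘ₗ cjL g' g) i =
      (cjL g g' ∘ₗ π) (g' * Matrix.single (i (Sum.inr 1)) (i (Sum.inl 1)) 1 * g) (i (Sum.inl 0)) (i (Sum.inr 0)) := rfl
  rw [h1, op_apply38]
  rw [Finset.sum_apply]
  refine Finset.sum_congr rfl fun k _ => ?_
  rw [Finset.sum_apply]
  refine Finset.sum_congr rfl fun l _ => ?_
  have h2 : (cjL g g' ∘ₗ π) (Matrix.single l k 1) = g * π (Matrix.single l k 1) * g' := rfl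
  rw [h2]
  unfold t22
  congr 1
  generalize i (Sum.inl 1) = p
  generalize i (Sum.inr 1) = q
  have e1 : (g * Matrix.single k l (1 : R) * g') p q = g p k * g' l q := by
    rw [Matrix.mul_apply, Finset.sum_eq_single l]
    · rw [Matrix.mul_apply, Finset.sum_eq_single k]
      · rw [Matrix.single_apply_same, mul_one]
      · intro x _ hx
        rw [Matrix.single_apply_of_ne _ _ _ _ _ (by tauto), mul_zero]
      · intro h
        exact absurd (Finset.mem_univ _) h
    · intro x _ hx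
      rw [Matrix.mul_apply, Finset.sum_eq_zero, zero_mul]
      intro y _
      rw [Matrix.single_apply_of_ne _ _ _ _ _ (by tauto), mul_zero]
    · intro h
      exact absurd (Finset.mem_univ _) h
  have e2 : (g' * Matrix.single q p (1 : R) * g) l k = g' l q * g p k := by
    rw [Matrix.mul_apply, Finset.sum_eq_single p]
    · rw [Matrix.mul_apply, Finset.sum_eq_single q]
      · rw [Matrix.single_apply_same, mul_one]
      · intro x _ hx
        rw [Matrix.single_apply_of_ne _ _ _ _ _ (by tauto), mul_zero]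
      · intro h
        exact absurd (Finset.mem_univ _) h
    · intro x _ hx
      rw [Matrix.mul_apply, Finset.sum_eq_zero, zero_mul]
      intro y _
      rw [Matrix.single_apply_of_ne _ _ _ _ _ (by tauto), mul_zero]
    · intro h
      exact absurd (Finset.mem_univ _) h
  rw [e1, e2, mul_comm]

/-- the scalars act on tensors of type `(a, b)` by `a - b` -/
theorem dL_one (a b : ℕ) (t : (Fin a ⊕ Fin b → n) → R) : dL a b t (1 : Matrix n n R) = ((a : R) - b) • t := by
  rw [dL_apply]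
  unfold dact
  rw [Fintype.sum_sum_type]
  have e1 : ∀ k : Fin a, actF (Function.update (fun _ => (1 : Matrix n n R)) (Sum.inl k : Fin a ⊕ Fin b)
      (lslot a b (1 : Matrix n n R) (Sum.inl k))) t = t := by
    intro k
    have : Function.update (fun _ => (1 : Matrix n n R)) (Sum.inl k : Fin a ⊕ Fin b)
        (lslot a b (1 : Matrix n n R) (Sum.inl k)) = fun _ => 1 := by
      have h1 : lslot a b (1 : Matrix n n R) (Sum.inl k) = 1 := rfl
      rw [h1]
      exact Function.update_eq_self _ _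
    rw [this, actF_one]
  have e2 : ∀ k : Fin b, actF (Function.update (fun _ => (1 : Matrix n n R)) (Sum.inr k : Fin a ⊕ Fin b)
      (lslot a b (1 : Matrix n n R) (Sum.inr k))) t = -t := by
    intro k
    have h1 : lslot a b (1 : Matrix n n R) (Sum.inr k) = -1 := by
      simp only [lslot, Sum.elim_inr, Matrix.transpose_one]
    rw [h1]
    funext i
    unfold actF
    have h2 : ∀ j : Fin a ⊕ Fin b → n, (∏ l, (Function.update (fun _ => (1 : Matrix n n R)) (Sum.inr k) (-1)) l (i l)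
        (j l)) = -∏ l, (1 : Matrix n n R) (i l) (j l) := by
      intro j
      rw [← Finset.mul_prod_erase _ _ (Finset.mem_univ (Sum.inr k : Fin a ⊕ Fin b)),
        ← Finset.mul_prod_erase _ (fun l => (1 : Matrix n n R) (i l) (j l)) (Finset.mem_univ (Sum.inr k : Fin a ⊕ Fin b)),
        Function.update_self, Matrix.neg_apply, neg_mul]
      congr 2
      refine Finset.prod_congr rfl fun l hl => ?_
      rw [Function.update_of_ne (Finset.ne_of_mem_erase hl)]
    simp only [h2, neg_mul, Finset.sum_neg_distrib]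
    have h3 := congrFun (actF_one (R := R) (n := n) t) i
    unfold actF at h3
    rw [h3, Pi.neg_apply]
  rw [Finset.sum_congr rfl fun k _ => e1 k, Finset.sum_congr rfl fun k _ => e2 k, Finset.sum_const, Finset.sum_const,
    Finset.card_univ, Finset.card_univ, Fintype.card_fin, Fintype.card_fin, sub_smul, smul_neg, ← Nat.cast_smul_eq_nsmul R,
    ← Nat.cast_smul_eq_nsmul R, sub_eq_add_neg]

end op

/-- `Γ` is a group over the monodromy group `D`: the Tate tensors of `Γ` are Tate tensors of `D`, and the spaces of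
Tate tensors of `D` are stable under `Γ`; some subgroup of finite index consists of neat elements, and some subgroup
of finite index preserves `Q` if and only if the weight is zero. -/
structure IsOver (w : ℤ) (Q : Matrix n n ℚ) (D : Subgroup (GL n ℚ)) (Γ : Subgroup (GL n ℂ)) : Prop where
  sub : ∀ a b t, IsTateTensor Γ a b t → IsTateTensor (mapC D) a b t
  stab : ∀ g ∈ Γ, ∀ a b t, IsTateTensor (mapC D) a b t →
    IsTateTensor (mapC D) a b (actF (slot a b (g : Matrix n n ℂ) ((g⁻¹ : GL n ℂ) : Matrix n n ℂ)) t)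
  neat : ∃ Γ' : Subgroup (GL n ℂ), Γ' ≤ Γ ∧ Γ'.relIndex Γ ≠ 0 ∧ ∀ g ∈ Γ', IsNeat g
  mult : (∃ Γ' : Subgroup (GL n ℂ), Γ' ≤ Γ ∧ Γ'.relIndex Γ ≠ 0 ∧
    ∀ g ∈ Γ', (g : Matrix n n ℂ)ᵀ * toC Q * (g : Matrix n n ℂ) = toC Q) ↔ w = 0

variable {w : ℤ} {Q : Matrix n n ℚ} {S : Finset ℤ} {P : ℤ → Matrix n n ℂ} {D : Subgroup (GL n ℚ)}

namespace IsMon

variable (M : IsMon Q S P D) (H : IsHW w Q S P)
include M H

/-- the trace form is nondegenerate on `J` -/
theorem compl : IsCompl (LG (mapC D)) ((tr38 n).orthogonal (LG (mapC D))) := by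
  obtain ⟨B, Bi, Qi, h1, h2, h3, h4, hM⟩ := H.exists_basis
  have hnd : ((tr38 n).restrict (LG (mapC D))).Nondegenerate := by
    have hr : ((tr38 n).restrict (LG (mapC D))).IsRefl := fun x y h => tr38_refl _ _ h
    refine (LinearMap.IsRefl.nondegenerate_iff_separatingLeft hr).2 ?_
    intro x hx
    by_contra hx0
    have hx1 : (x : Matrix n n ℂ) ≠ 0 := fun h => hx0 (Subtype.ext h)
    have e0 : cj B Bi (x : Matrix n n ℂ) ∈ JB D B Bi := by
      rw [mem_JB, cj_cj h2]
      exact x.2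
    have e1 := mem_JB.1 (M.JB_star H h1 h2 hM e0)
    rw [IsHW.cj_herm h1 hM, cj_cj h2] at e1
    exact IsHW.st_pos h1 h2 hM hx1 (hx ⟨_, e1⟩)
  exact LinearMap.BilinForm.isCompl_orthogonal_of_restrict_nondegenerate tr38_refl hnd

/-- the projection onto `J` -/
noncomputable def pr : Matrix n n ℂ →ₗ[ℂ] Matrix n n ℂ :=
  (LG (mapC D)).projection ((tr38 n).orthogonal (LG (mapC D))) (M.compl H)

theorem pr_fix {g g' : Matrix n n ℂ} (h1 : g * g' = 1) (h2 : g' * g = 1)
    (hg : ∀ X ∈ LG (mapC D), g * X * g' ∈ LG (mapC D)) (hg' : ∀ X ∈ LG (mapC D), g' * X * g ∈ LG (mapC D)) :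
    actF (slot 2 2 g g') (tE38 (M.pr H)) = tE38 (M.pr H) := by
  rw [act_tE38]
  congr 1
  refine LinearMap.ext fun Z => ?_
  have hc := M.compl H
  obtain ⟨x, y, hxy, -⟩ := Submodule.existsUnique_add_of_isCompl hc Z
  have e1 : ∀ W : Matrix n n ℂ, (cjL g g' ∘ₗ M.pr H ∘ₗ cjL g' g) W = g * (M.pr H (g' * W * g)) * g' := fun W => rfl
  have hy : g' * (y : Matrix n n ℂ) * g ∈ (tr38 n).orthogonal (LG (mapC D)) := by
    intro X hX
    have e2 : tr38 n (g * X * g') (y : Matrix n n ℂ) = 0 := y.2 _ (hg X hX)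
    change tr38 n X (g' * (y : Matrix n n ℂ) * g) = 0
    rw [tr38_apply] at e2 ⊢
    rw [← e2, Matrix.mul_assoc g' _ g, ← Matrix.mul_assoc X, Matrix.trace_mul_comm, Matrix.mul_assoc (y : Matrix n n ℂ),
      Matrix.trace_mul_comm, Matrix.mul_assoc g X g']
  have px : M.pr H (g' * (x : Matrix n n ℂ) * g) = g' * (x : Matrix n n ℂ) * g :=
    Submodule.projection_apply_of_mem_left hc (hg' x x.2)
  have py : M.pr H (g' * (y : Matrix n n ℂ) * g) = 0 := Submodule.projection_apply_of_mem_right hc hy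
  have px' : M.pr H (x : Matrix n n ℂ) = x := Submodule.projection_apply_of_mem_left hc x.2
  have py' : M.pr H (y : Matrix n n ℂ) = 0 := Submodule.projection_apply_of_mem_right hc y.2
  rw [e1, ← hxy, mul_add, add_mul, map_add, map_add, px, py, px', py', add_zero, add_zero]
  calc g * (g' * (x : Matrix n n ℂ) * g) * g' = (g * g') * (x : Matrix n n ℂ) * (g * g') := by simp only [mul_assoc]
    _ = x := by rw [h1, one_mul, mul_one]

theorem pr_kill {X : Matrix n n ℂ} (hX : dL 2 2 (tE38 (M.pr H)) X = 0) {Y : Matrix n n ℂ} (hY : Y ∈ LG (mapC D)) :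
    X * Y - Y * X ∈ LG (mapC D) := by
  rw [dL_tE38] at hX
  have h1 := sub_eq_zero.1 (tE38_inj hX)
  have h2 := congrArg (fun f => f Y) h1
  have h3 : ad38 X (M.pr H Y) = M.pr H (ad38 X Y) := h2
  have h4 : M.pr H Y = Y := Submodule.projection_apply_of_mem_left (M.compl H) hY
  rw [h4] at h3
  have h6 : X * Y - Y * X = ad38 X Y := rfl
  rw [h6, h3]
  exact Submodule.projection_apply_mem (M.compl H) _

omit H in
/-- the elements that preserve the Tate tensors normalise `J` -/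
theorem conj_mem {g : GL n ℂ} (hg : ∀ a b t, IsTateTensor (mapC D) a b t →
      IsTateTensor (mapC D) a b (actF (slot a b ((g⁻¹ : GL n ℂ) : Matrix n n ℂ) (g : Matrix n n ℂ)) t))
    {X : Matrix n n ℂ} (hX : X ∈ LG (mapC D)) :
    (g : Matrix n n ℂ) * X * ((g⁻¹ : GL n ℂ) : Matrix n n ℂ) ∈ LG (mapC D) := by
  intro a b t ht
  refine dL_conj' ?_ (hX a b _ (hg a b t ht))
  rw [← Units.val_mul, mul_inv_cancel, Units.val_one]

/-- The tensor Lie algebra of a group that preserves the Tate tensors of `D` is in `J` plus the scalars. -/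
theorem LG_le {Γ : Subgroup (GL n ℂ)} (hΓ : ∀ g ∈ Γ, ∀ a b t, IsTateTensor (mapC D) a b t →
      IsTateTensor (mapC D) a b (actF (slot a b (g : Matrix n n ℂ) ((g⁻¹ : GL n ℂ) : Matrix n n ℂ)) t))
    {X : Matrix n n ℂ} (hX : X ∈ LG Γ) {Y : Matrix n n ℂ} (hY : Y ∈ LG (mapC D)) : X * Y - Y * X ∈ LG (mapC D) := by
  refine M.pr_kill H (hX 2 2 _ ⟨Γ, le_rfl, by rw [Subgroup.relIndex_self]; exact one_ne_zero, fun g hg => ?_⟩) hY
  have e1 : ((g⁻¹⁻¹ : GL n ℂ) : Matrix n n ℂ) = (g : Matrix n n ℂ) := by rw [inv_inv]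
  refine M.pr_fix H ?_ ?_ (fun X hX => M.conj_mem ?_ hX) (fun X hX => ?_)
  · rw [← Units.val_mul, mul_inv_cancel, Units.val_one]
  · rw [← Units.val_mul, inv_mul_cancel, Units.val_one]
  · intro a b t ht
    have h3 := hΓ _ (Γ.inv_mem hg) a b t ht
    rwa [e1] at h3
  · have h3 := M.conj_mem (g := g⁻¹) (by
      intro a b t ht
      rw [e1]
      exact hΓ g hg a b t ht) hX
    rwa [e1] at h3

end IsMon

theorem act_t02 (g : GL n ℂ) (A : Matrix n n ℂ) :
    actF (slot 0 2 (g : Matrix n n ℂ) ((g⁻¹ : GL n ℂ) : Matrix n n ℂ)) (t02 A) =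
      t02 (((g⁻¹ : GL n ℂ) : Matrix n n ℂ)ᵀ * A * ((g⁻¹ : GL n ℂ) : Matrix n n ℂ)) := by
  rw [actF_t02]
  simp only [slot, Sum.elim_inr, Matrix.transpose_transpose]

theorem tate_Q {Γ : Subgroup (GL n ℂ)} : IsTateTensor Γ 0 2 (t02 (toC Q)) ↔
    ∃ Γ' : Subgroup (GL n ℂ), Γ' ≤ Γ ∧ Γ'.relIndex Γ ≠ 0 ∧
      ∀ g ∈ Γ', (g : Matrix n n ℂ)ᵀ * toC Q * (g : Matrix n n ℂ) = toC Q := by
  constructor
  · rintro ⟨Γ', h1, h2, h3⟩
    refine ⟨Γ', h1, h2, fun g hg => ?_⟩
    have h4 := h3 _ (Γ'.inv_mem hg)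
    rw [act_t02, inv_inv] at h4
    exact t02_inj h4
  · rintro ⟨Γ', h1, h2, h3⟩
    refine ⟨Γ', h1, h2, fun g hg => ?_⟩
    rw [act_t02, h3 _ (Γ'.inv_mem hg)]

section main

variable {Γ : Subgroup (GL n ℂ)} (M : IsMon Q S P D) (H : IsHW w Q S P) (G : IsOver w Q D Γ)
  (hEnd : ∀ A : Matrix n n ℚ, (∀ p, toC A * P p = P p * toC A) → ∃ c : ℚ, A = c • (1 : Matrix n n ℚ))
  (hI : NI.Indec w (fun p => (P p).rank))
include M H G hEnd hI

theorem IsOver.le : ∀ X ∈ LG Γ, ∃ c : ℂ, X - c • (1 : Matrix n n ℂ) ∈ LG (mapC D) :=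
  fun _ hX => M.nrm H hEnd hI fun _ hY => M.LG_le H G.stab hX hY

omit M H hEnd hI in
theorem IsOver.ge : ∀ X ∈ LG (mapC D), X ∈ LG Γ := fun _ hX a b t ht => hX a b t (G.sub a b t ht)

/-- the scalars are in the tensor Lie algebra if the weight is not zero -/
theorem IsOver.one (hw : w ≠ 0) : (1 : Matrix n n ℂ) ∈ LG Γ := by
  obtain ⟨Γ', g1, g2, g3⟩ := G.neat
  have h1 : ¬ ∀ X ∈ LG Γ, dL 0 2 (t02 (toC Q)) X = 0 := by
    intro h
    exact hw (G.mult.1 (tate_Q.1 ((tate_iff_kill g1 g2 g3).2 h)))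
  push Not at h1
  obtain ⟨X, hX, h2⟩ := h1
  obtain ⟨c, hc⟩ := G.le M H hEnd hI X hX
  have h3 : c ≠ 0 := by
    rintro rfl
    rw [zero_smul, sub_zero] at hc
    apply h2
    rw [dL_t02, M.LG_skew hc, neg_zero]
    rfl
  have h4 := (LG Γ).sub_mem hX (G.ge _ hc)
  rw [sub_sub_cancel] at h4
  have h5 := (LG Γ).smul_mem c⁻¹ h4
  rwa [smul_smul, inv_mul_cancel₀ h3, one_smul] at h5

/-- if the weight is zero the tensor Lie algebra is `J` -/
theorem IsOver.zero [Nonempty n] (hw : w = 0) : ∀ X ∈ LG Γ, X ∈ LG (mapC D) := by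
  intro X hX
  obtain ⟨c, hc⟩ := G.le M H hEnd hI X hX
  have h1 := M.LG_skew hc
  have h2 := hX 0 2 _ (tate_Q.2 (G.mult.2 hw))
  rw [dL_t02] at h2
  have h3 : Xᵀ * toC Q + toC Q * X = 0 := by
    have h4 : t02 (-(Xᵀ * toC Q + toC Q * X)) = t02 (0 : Matrix n n ℂ) := by
      rw [h2]
      rfl
    exact neg_eq_zero.mp (t02_inj h4)
  have e1 : (X - c • (1 : Matrix n n ℂ))ᵀ * toC Q + toC Q * (X - c • (1 : Matrix n n ℂ)) =
      (Xᵀ * toC Q + toC Q * X) - (2 * c) • toC Q := by
    rw [Matrix.transpose_sub, Matrix.transpose_smul, Matrix.transpose_one, sub_mul, mul_sub, smul_mul_assoc, one_mul,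
      mul_smul_comm, mul_one, two_mul, add_smul]
    abel
  rw [e1, h3, zero_sub] at h1
  obtain ⟨B, Bi, Qi, b1, b2, b3, b4, hM⟩ := H.exists_basis
  rcases smul_eq_zero.1 (neg_eq_zero.1 h1) with h6 | h6
  · have h7 : c = 0 := by simpa using h6
    rw [h7, zero_smul, sub_zero] at hc
    exact hc
  · rw [h6, zero_mul] at b3
    exact absurd b3 zero_ne_one

/-- **Main theorem.** The Tate tensors of the groups over `D` are those Tate tensors of `D` whose weight is zero. -/
theorem IsOver.tate_iff [Nonempty n] (a b : ℕ) (t : (Fin a ⊕ Fin b → n) → ℂ) :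
    IsTateTensor Γ a b t ↔ IsTateTensor (mapC D) a b t ∧ (w ≠ 0 → a ≠ b → t = 0) := by
  obtain ⟨Γ', g1, g2, g3⟩ := G.neat
  constructor
  · intro ht
    refine ⟨G.sub a b t ht, fun hw hab => ?_⟩
    have h1 := G.one M H hEnd hI hw a b t ht
    rw [dL_one] at h1
    rcases smul_eq_zero.1 h1 with h2 | h2
    · exact absurd (by exact_mod_cast sub_eq_zero.1 h2) hab
    · exact h2
  · rintro ⟨ht, h0⟩
    refine (tate_iff_kill g1 g2 g3).2 fun X hX => ?_
    by_cases hw : w = 0
    · exact G.zero M H hEnd hI hw X hX a b t ht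
    · by_cases hab : a = b
      · subst hab
        obtain ⟨c, hc⟩ := G.le M H hEnd hI X hX
        have h1 := hc a a t ht
        rwa [map_sub, map_smul, dL_one_self, smul_zero, sub_zero] at h1
      · rw [h0 hw hab, dL_apply, dact_zero]

end main

end MH
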