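import Pool.Agent.Helper55.NI.Gen

/-!
Project NI (MP_b8862a_ag): the Hodge generic case.
-/

set_option linter.unusedSectionVars false

open Matrix

namespace MH

variable {n : Type*} [Fintype n] [DecidableEq n]
variable {w : ℤ} {Q : Matrix n n ℚ} {S : Finset ℤ} {P : ℤ → Matrix n n ℂ} {D : Subgroup (GL n ℚ)}

theorem IsTateTensor.add {Γ : Subgroup (GL n ℂ)} {a b : ℕ} {t u : (Fin a ⊕ Fin b → n) → ℂ}
    (ht : IsTateTensor Γ a b t) (hu : IsTateTensor Γ a b u) : IsTateTensor Γ a b (t + u) := by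
  obtain ⟨Γ₁, h1, h2, h3⟩ := ht
  obtain ⟨Γ₂, k1, k2, k3⟩ := hu
  refine ⟨Γ₁ ⊓ Γ₂, inf_le_left.trans h1, ?_, fun g hg => ?_⟩
  · exact Subgroup.relIndex_inf_ne_zero h2 k2
  · rw [actF_add, h3 g hg.1, k3 g hg.2]

theorem IsTateTensor.smul {Γ : Subgroup (GL n ℂ)} {a b : ℕ} {t : (Fin a ⊕ Fin b → n) → ℂ} (c : ℂ)
    (ht : IsTateTensor Γ a b t) : IsTateTensor Γ a b (c • t) := by
  obtain ⟨Γ₁, h1, h2, h3⟩ := ht
  exact ⟨Γ₁, h1, h2, fun g hg => by rw [actF_smul, h3 g hg]⟩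

theorem IsTateTensor.zero {Γ : Subgroup (GL n ℂ)} {a b : ℕ} : IsTateTensor Γ a b (0 : (Fin a ⊕ Fin b → n) → ℂ) :=
  ⟨Γ, le_rfl, by rw [Subgroup.relIndex_self]; exact one_ne_zero, fun g _ => actF_zero _⟩

/-- a tensor fixed by the Mumford-Tate group is killed by the conjugates of `∑ p P p` -/
theorem IsHW.kill_of_MT (H : IsHW w Q S P) {a b : ℕ} {t : (Fin a ⊕ Fin b → n) → ℂ}
    (ht : ∀ g ∈ MT S P, actF (slot a b (g : Matrix n n ℂ) ((g⁻¹ : GL n ℂ) : Matrix n n ℂ)) t = t) (σ : ℂ ≃+* ℂ) :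
    dL a b t ((∑ p ∈ S, (p : ℂ) • P p).map σ) = 0 := by
  -- the conjugate tensor is fixed by `MT`
  obtain ⟨u, hu⟩ : ∃ u : (Fin a ⊕ Fin b → n) → ℂ, u = fun i => σ.symm (t i) := ⟨_, rfl⟩
  have hut : (fun i => σ (u i)) = t := by
    rw [hu]
    funext i
    simp
  have h1 : ∀ z : ℂ, z ≠ 0 → actF (slot a b (cochar S P z) (cochar S P z⁻¹)) u = u := by
    intro z hz
    -- the conjugate of the element `cochar z`
    obtain ⟨g', hg'⟩ : ∃ g' : GL n ℂ, (g' : Matrix n n ℂ) = ((H.coch z hz : GL n ℂ) : Matrix n n ℂ).map σ ∧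
        ((g'⁻¹ : GL n ℂ) : Matrix n n ℂ) = (((H.coch z hz)⁻¹ : GL n ℂ) : Matrix n n ℂ).map σ := by
      refine ⟨Matrix.GeneralLinearGroup.map (σ : ℂ →+* ℂ) (H.coch z hz), rfl, ?_⟩
      rw [← map_inv]
      rfl
    have h2 := ht g' (MT_aut σ hg'.1 (H.coch_mem z hz))
    have h3 : slot a b (g' : Matrix n n ℂ) ((g'⁻¹ : GL n ℂ) : Matrix n n ℂ) =
        fun k => (slot a b (cochar S P z) (cochar S P z⁻¹) k).map (σ : ℂ →+* ℂ) := by
      funext k
      rcases k with k | k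
      · exact hg'.1
      · simp only [slot, Sum.elim_inr]
        rw [hg'.2]
        rfl
    rw [h3, ← hut] at h2
    funext i
    have h4 := congrFun h2 i
    have h5 := actF_map (σ : ℂ →+* ℂ) (slot a b (cochar S P z) (cochar S P z⁻¹)) u i
    have h6 : (σ : ℂ →+* ℂ) (actF (slot a b (cochar S P z) (cochar S P z⁻¹)) u i) = (σ : ℂ →+* ℂ) (u i) :=
      h5.symm.trans h4
    exact σ.injective h6
  have h2 := (H.idm.inv_iff a b u).1 h1
  have h3 := dL_σ σ (∑ p ∈ S, (p : ℂ) • P p) u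
  rw [hut, h2] at h3
  rw [h3]
  funext i
  simp

section main

variable {Γ : Subgroup (GL n ℂ)} (M : IsMon Q S P D) (H : IsHW w Q S P) (G : IsOver w Q D Γ)
  (hEnd : ∀ A : Matrix n n ℚ, (∀ p, toC A * P p = P p * toC A) → ∃ c : ℚ, A = c • (1 : Matrix n n ℚ))
  (hI : NI.Indec w (fun p => (P p).rank))
include M H G hEnd hI

/-- **Hodge generic case.** If the Hodge tensors are Tate tensors of `D`, the Tate tensors of `Γ` are the tensors fixed
by the Mumford-Tate group. -/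
theorem IsOver.tate_iff_MT [Nonempty n]
    (hg : ∀ (a b : ℕ) (t : (Fin a ⊕ Fin b → n) → ℚ), IsHodgeTensor S P a b t → IsTateTensor (mapC D) a b (tC t))
    (a b : ℕ) (t : (Fin a ⊕ Fin b → n) → ℂ) :
    IsTateTensor Γ a b t ↔
      ∀ g ∈ MT S P, actF (slot a b (g : Matrix n n ℂ) ((g⁻¹ : GL n ℂ) : Matrix n n ℂ)) t = t := by
  -- the conjugates of `∑ p P p` are in the tensor Lie algebra
  have key : ∀ σ : ℂ ≃+* ℂ, (∑ p ∈ S, (p : ℂ) • P p).map σ ∈ LG Γ := by
    intro σ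
    have h1 : (hw w S P).map σ ∈ LG Γ := G.ge _ (M.LH_le H hEnd hI (LH_aut σ H.hw_mem))
    have h2 : (w : ℂ) • (1 : Matrix n n ℂ) ∈ LG Γ := by
      by_cases hw : w = 0
      · rw [hw, Int.cast_zero, zero_smul]
        exact (LG Γ).zero_mem
      · exact (LG Γ).smul_mem _ (G.one M H hEnd hI hw)
    rw [H.hwσ] at h1
    have h3 := (LG Γ).add_mem h1 h2
    rw [sub_add_cancel] at h3
    have h4 := (LG Γ).smul_mem ((2 : ℂ)⁻¹) h3
    rwa [smul_smul, inv_mul_cancel₀ two_ne_zero, one_smul] at h4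
  constructor
  · intro ht g hg'
    exact H.MT_of_kill (fun σ => key σ a b t ht) hg'
  · intro ht
    have h1 : t ∈ Submodule.span ℂ {x | ∃ s : (Fin a ⊕ Fin b → n) → ℚ, x = tC s ∧ IsHodgeTensor S P a b s} := by
      exact H.span_of_kill fun σ => H.kill_of_MT ht σ
    clear ht
    induction h1 using Submodule.span_induction with
    | mem x hx =>
      obtain ⟨s, rfl, hs⟩ := hx
      refine (G.tate_iff M H hEnd hI a b _).2 ⟨hg a b s hs, fun hw hab => ?_⟩
      have h2 := H.kill_one hs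
      rw [dL_one, smul_smul] at h2
      rcases smul_eq_zero.1 h2 with h3 | h3
      · exfalso
        rcases mul_eq_zero.1 h3 with h4 | h4
        · exact hw (by exact_mod_cast h4)
        · exact hab (by exact_mod_cast sub_eq_zero.1 h4)
      · exact h3
    | zero => exact IsTateTensor.zero
    | add x y _ _ hx hy => exact hx.add hy
    | smul c x _ hx => exact hx.smul c

end main

end MH
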