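import Pool.Agent.Helper55.NI.Pal
import Pool.Agent.Helper2.MON.Use

/-!
Project NI (MP_b8862a_ag): the tensor Lie algebra `J` of a monodromy group acts irreducibly if the Hodge numbers are
not those of a tensor product, and every matrix that normalises `J` is in `J` plus the scalars.
-/

set_option linter.unusedSectionVars false

open Matrix

namespace MH

variable {n : Type*} [Fintype n] [DecidableEq n]
variable {w : ℤ} {Q : Matrix n n ℚ} {S : Finset ℤ} {P : ℤ → Matrix n n ℂ} {D : Subgroup (GL n ℚ)}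

/-- brackets of matrices that kill all Tate tensors -/
theorem LG_br {Γ : Subgroup (GL n ℂ)} {X Y : Matrix n n ℂ} (hX : X ∈ LG Γ) (hY : Y ∈ LG Γ) : X * Y - Y * X ∈ LG Γ := by
  intro a b t ht
  rw [dL_bracket, hX a b t ht, hY a b t ht, dact_zero, dact_zero, sub_zero]

/-- the Lie algebra `J` in the basis `B` -/
noncomputable def JB (D : Subgroup (GL n ℚ)) (B Bi : Matrix n n ℂ) : Submodule ℂ (Matrix n n ℂ) where
  carrier := {x | cj Bi B x ∈ LG (mapC D)}
  add_mem' := by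
    intro x y hx hy
    change cj Bi B (x + y) ∈ LG (mapC D)
    rw [cj_add]
    exact (LG (mapC D)).add_mem hx hy
  zero_mem' := by
    change cj Bi B 0 ∈ LG (mapC D)
    rw [cj_zero]
    exact (LG (mapC D)).zero_mem
  smul_mem' := by
    intro c x hx
    change cj Bi B (c • x) ∈ LG (mapC D)
    rw [cj_smul]
    exact (LG (mapC D)).smul_mem c hx

theorem mem_JB {B Bi x : Matrix n n ℂ} : x ∈ JB D B Bi ↔ cj Bi B x ∈ LG (mapC D) := Iff.rfl

/-- a Galois stable set of matrices that commutes with the Hodge cocharacter consists of endomorphisms -/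
theorem IsHW.EC_of_set (H : IsHW w Q S P) {K : Set (Matrix n n ℂ)} (hσ : ∀ σ : ℂ ≃+* ℂ, ∀ X ∈ K, X.map σ ∈ K)
    (hh : ∀ X ∈ K, X * hw w S P = hw w S P * X) {X : Matrix n n ℂ} (hX : X ∈ K) : X ∈ EC P := by
  refine H.descent fun σ => ?_
  have h1 := hh _ (hσ σ.symm X hX)
  have h2 := congrArg (fun Y : Matrix n n ℂ => Y.map (σ : ℂ →+* ℂ)) h1
  simp only [Matrix.map_mul, map_symm_map] at h2
  exact h2

theorem EC_scalar (hEnd : ∀ A : Matrix n n ℚ, (∀ p, toC A * P p = P p * toC A) → ∃ c : ℚ, A = c • (1 : Matrix n n ℚ))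
    {x : Matrix n n ℂ} (hx : x ∈ EC P) : ∃ c : ℂ, x = c • (1 : Matrix n n ℂ) := by
  unfold EC at hx
  induction hx using Submodule.span_induction with
  | mem y hy =>
    obtain ⟨A, hA, rfl⟩ := hy
    obtain ⟨c, rfl⟩ := hEnd A hA
    refine ⟨(c : ℂ), ?_⟩
    ext i j
    simp only [toC, Matrix.map_apply, Matrix.smul_apply, Matrix.one_apply, smul_eq_mul]
    split_ifs <;> simp
  | zero => exact ⟨0, by rw [zero_smul]⟩
  | add y z _ _ hy hz =>
    obtain ⟨c, rfl⟩ := hy
    obtain ⟨d, rfl⟩ := hz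
    exact ⟨c + d, by rw [add_smul]⟩
  | smul a y _ hy =>
    obtain ⟨c, rfl⟩ := hy
    exact ⟨a * c, by rw [smul_smul]⟩

namespace IsMon

variable (M : IsMon Q S P D) (H : IsHW w Q S P)
include M H

theorem LG_C0 {X : Matrix n n ℂ} (hX : X ∈ LG (mapC D)) : C0 S P * X * C0 S P ∈ LG (mapC D) := by
  have h3 := M.LG_cochar H (z := -1) (by norm_num) hX
  have h4 : cochar S P (-1) = C0 S P := rfl
  have h5 : cochar S P (-1)⁻¹ = C0 S P := by
    unfold cochar C0
    norm_num
  rwa [h4, h5] at h3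

theorem LH_norm {Y : Matrix n n ℂ} (hY : Y ∈ LH Q S P) {X : Matrix n n ℂ} (hX : X ∈ LG (mapC D)) :
    Y * X - X * Y ∈ LG (mapC D) :=
  H.ideal_of_sub (fun σ X hX => LG_aut σ hX) (fun z hz X hX => M.LG_cochar H hz hX)
    (fun X hX => M.LG_skew hX) hY hX

section basis

variable {B Bi Qi : Matrix n n ℂ} (h1 : B * Bi = 1) (h2 : Bi * B = 1) (h3 : toC Q * Qi = 1)
  (h4 : Qi * toC Q = 1) (hM : Mw w Q S P = Bᴴ * B)
include h1 h2 hM

/-- `J` is self-adjoint in the new basis -/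
theorem JB_star {x : Matrix n n ℂ} (hx : x ∈ JB D B Bi) : xᴴ ∈ JB D B Bi := by
  rw [mem_JB] at hx ⊢
  rw [IsHW.cj_herm h1 hM]
  obtain ⟨κ, hκ⟩ := IsHW.exists_cc
  have hXc : (cj Bi B x).map (starRingEnd ℂ) ∈ LG (mapC D) := by
    have e1 : (cj Bi B x).map (starRingEnd ℂ) = (cj Bi B x).map κ := by
      ext i j
      rw [Matrix.map_apply, Matrix.map_apply, hκ]
    rw [e1]
    exact LG_aut κ hx
  have hXt : (cj Bi B x)ᴴ = ((cj Bi B x).map (starRingEnd ℂ))ᵀ := rfl
  rw [hXt]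
  generalize (cj Bi B x).map (starRingEnd ℂ) = Y at hXc
  have e3 : Yᵀ * toC Q = -(toC Q * Y) := eq_neg_of_add_eq_zero_left (M.LG_skew hXc)
  have e4 : Bi * Biᴴ * Yᵀ * Mw w Q S P = -(C0 S P * Y * C0 S P) := by
    unfold Mw
    rw [mul_smul_comm]
    calc Complex.I ^ w • (Bi * Biᴴ * Yᵀ * (toC Q * C0 S P))
        = Complex.I ^ w • ((Bi * Biᴴ) * (Yᵀ * toC Q) * C0 S P) := by simp only [mul_assoc]
      _ = Complex.I ^ w • -(((Bi * Biᴴ) * toC Q) * Y * C0 S P) := by
          rw [e3, mul_neg, neg_mul]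
          simp only [mul_assoc]
      _ = _ := by
          rw [H.Mi_Q h1 h2 hM, smul_mul_assoc, smul_mul_assoc, ← smul_neg, smul_smul, mul_inv_cancel₀ (I_zpow_ne w),
            one_smul]
  rw [e4]
  exact (LG (mapC D)).neg_mem (M.LG_C0 H hXc)

omit hM h2 in
theorem JB_norm {y : Matrix n n ℂ} (hy : y ∈ LB Q S P B Bi) {x : Matrix n n ℂ} (hx : x ∈ JB D B Bi) :
    y * x - x * y ∈ JB D B Bi := by
  rw [mem_JB, cj_sub, ← cj_mul h1, ← cj_mul h1]
  exact M.LH_norm H (mem_LB.1 hy) (mem_JB.1 hx)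

omit hM h2 in
theorem JB_br {x y : Matrix n n ℂ} (hx : x ∈ JB D B Bi) (hy : y ∈ JB D B Bi) : x * y - y * x ∈ JB D B Bi := by
  rw [mem_JB, cj_sub, ← cj_mul h1, ← cj_mul h1]
  exact LG_br (mem_JB.1 hx) (mem_JB.1 hy)

include h3 h4 in
/-- The dichotomy for the algebra generated by `J`. -/
theorem dichJ [Nonempty n]
    (hEnd : ∀ A : Matrix n n ℚ, (∀ p, toC A * P p = P p * toC A) → ∃ c : ℚ, A = c • (1 : Matrix n n ℚ))
    (hI : NI.Indec w (fun p => (P p).rank)) :
    (∀ a ∈ JB D B Bi, cj B Bi (hw w S P) * a = a * cj B Bi (hw w S P)) ∨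
      (∀ T : Matrix n n ℂ, (∀ a ∈ JB D B Bi, T * a = a * T) → T * cj B Bi (hw w S P) = cj B Bi (hw w S P) * T) := by
  obtain ⟨A, hA⟩ : ∃ A : Subalgebra ℂ (Matrix n n ℂ), A = Algebra.adjoin ℂ (JB D B Bi : Set (Matrix n n ℂ)) := ⟨_, rfl⟩
  have hJA : ∀ x ∈ JB D B Bi, x ∈ A := fun x hx => by
    rw [hA]
    exact Algebra.subset_adjoin hx
  have hst : ∀ a ∈ A, aᴴ ∈ A := by
    intro a ha
    rw [hA] at ha
    induction ha using Algebra.adjoin_induction with
    | mem x hx => exact hJA _ (M.JB_star H h1 h2 hM hx)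
    | algebraMap r =>
      rw [Algebra.algebraMap_eq_smul_one, conjTranspose_smul, conjTranspose_one]
      exact A.smul_mem A.one_mem _
    | add x y _ _ hx hy => rw [conjTranspose_add]; exact A.add_mem hx hy
    | mul x y _ _ hx hy => rw [conjTranspose_mul]; exact A.mul_mem hy hx
  have hn : ∀ y ∈ LB Q S P B Bi, ∀ a ∈ A, y * a - a * y ∈ A := by
    intro y hy a ha
    rw [hA] at ha
    induction ha using Algebra.adjoin_induction with
    | mem x hx => exact hJA _ (M.JB_norm H h1 hy hx)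
    | algebraMap r =>
      rw [Algebra.algebraMap_eq_smul_one, mul_smul_comm, smul_mul_assoc, mul_one, one_mul, sub_self]
      exact A.zero_mem
    | add x z _ _ hx hz =>
      have e1 : y * (x + z) - (x + z) * y = (y * x - x * y) + (y * z - z * y) := by noncomm_ring
      rw [e1]
      exact A.add_mem hx hz
    | mul x z hx' hz' hx hz =>
      rw [← hA] at hx' hz'
      have e1 : y * (x * z) - (x * z) * y = (y * x - x * y) * z + x * (y * z - z * y) := by noncomm_ring
      rw [e1]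
      exact A.add_mem (A.mul_mem hx hz') (A.mul_mem hx' hz)
  have irr : ∀ T : Matrix n n ℂ, (∀ x ∈ LB Q S P B Bi, T * x = x * T) → ∃ c : ℂ, T = c • (1 : Matrix n n ℂ) := by
    intro T hT
    have hT' : cj Bi B T ∈ EC P := by
      refine H.EC_of_LH fun X hX => ?_
      have e1 := hT (cj B Bi X) (by rw [mem_LB, cj_cj h2]; exact hX)
      have e2 := congrArg (cj Bi B) e1
      rwa [← cj_mul h1, ← cj_mul h1, cj_cj h2] at e2
    obtain ⟨c, hc⟩ := EC_scalar hEnd hT'
    refine ⟨c, ?_⟩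
    rw [← cj_cj h1 T, hc, cj_smul, cj_one h1]
  have hcen : ∀ a ∈ A, (∀ b ∈ A, a * b = b * a) → ∃ c : ℂ, a = c • (1 : Matrix n n ℂ) :=
    fun a ha hc => OW.centre irr A hst hn ha hc
  have t1 : ∀ x : Matrix n n ℂ, (B * Qi * Bᵀ) * xᵀ * (Biᵀ * toC Q * Bi) = tau B Bi (toC Q) Qi x := by
    intro x
    rw [tau_apply]
    unfold cj
    rw [Matrix.transpose_mul, Matrix.transpose_mul]
    simp only [mul_assoc]
  have b1 : Biᵀ * Bᵀ = 1 := by rw [← Matrix.transpose_mul, h1, Matrix.transpose_one]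
  have b2 : Bᵀ * Biᵀ = 1 := by rw [← Matrix.transpose_mul, h2, Matrix.transpose_one]
  have f1 : (Biᵀ * toC Q * Bi) * (B * Qi * Bᵀ) = 1 := by
    calc (Biᵀ * toC Q * Bi) * (B * Qi * Bᵀ) = Biᵀ * toC Q * (Bi * B) * Qi * Bᵀ := by simp only [mul_assoc]
      _ = Biᵀ * (toC Q * Qi) * Bᵀ := by rw [h2, mul_one]; simp only [mul_assoc]
      _ = 1 := by rw [h3, mul_one, b1]
  have f2 : (B * Qi * Bᵀ) * (Biᵀ * toC Q * Bi) = 1 := by
    calc (B * Qi * Bᵀ) * (Biᵀ * toC Q * Bi) = B * Qi * (Bᵀ * Biᵀ) * toC Q * Bi := by simp only [mul_assoc]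
      _ = B * (Qi * toC Q) * Bi := by rw [b2, mul_one]; simp only [mul_assoc]
      _ = 1 := by rw [h4, mul_one, h1]
  have hF : (Biᵀ * toC Q * Bi)ᵀ = ((-1 : ℂ) ^ w) • (Biᵀ * toC Q * Bi) := by
    rw [Matrix.transpose_mul, Matrix.transpose_mul, Matrix.transpose_transpose, H.Q_symm]
    simp only [Matrix.smul_mul, Matrix.mul_smul, mul_assoc]
  have hc : ((-1 : ℂ) ^ w) * ((-1 : ℂ) ^ w) = 1 := sgn_mul w
  have hsk : ∀ X : Matrix n n ℂ, Xᵀ * toC Q + toC Q * X = 0 → tau B Bi (toC Q) Qi (cj B Bi X) = -cj B Bi X := by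
    intro X hX
    have e1 : Xᵀ * toC Q = -(toC Q * X) := eq_neg_of_add_eq_zero_left hX
    rw [tau_apply, cj_cj h2, mul_assoc, e1, mul_neg, ← mul_assoc, h4, one_mul, cj_neg]
  have hAF : ∀ a ∈ A, (B * Qi * Bᵀ) * aᵀ * (Biᵀ * toC Q * Bi) ∈ A := by
    intro a ha
    rw [hA] at ha
    induction ha using Algebra.adjoin_induction with
    | mem x hx =>
      have hx' : x ∈ JB D B Bi := hx
      have e1 := hsk _ (M.LG_skew (mem_JB.1 hx'))
      rw [cj_cj h1] at e1
      rw [t1, e1]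
      exact A.neg_mem (hJA _ hx)
    | algebraMap r =>
      rw [Algebra.algebraMap_eq_smul_one, Matrix.transpose_smul, Matrix.transpose_one, Matrix.mul_smul, Matrix.mul_one,
        Matrix.smul_mul, f2]
      exact A.smul_mem A.one_mem _
    | add x y _ _ hx hy =>
      rw [Matrix.transpose_add, Matrix.mul_add, Matrix.add_mul]
      exact A.add_mem hx hy
    | mul x y _ _ hx hy =>
      have e1 : (B * Qi * Bᵀ) * (x * y)ᵀ * (Biᵀ * toC Q * Bi) =
          ((B * Qi * Bᵀ) * yᵀ * (Biᵀ * toC Q * Bi)) * ((B * Qi * Bᵀ) * xᵀ * (Biᵀ * toC Q * Bi)) := by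
        generalize B * Qi * Bᵀ = Fi at f1 f2
        generalize Biᵀ * toC Q * Bi = F at f1 f2
        rw [Matrix.transpose_mul]
        calc Fi * (yᵀ * xᵀ) * F = Fi * yᵀ * (1 : Matrix n n ℂ) * xᵀ * F := by
              rw [Matrix.mul_one]
              simp only [Matrix.mul_assoc]
          _ = _ := by
              rw [← f1]
              simp only [Matrix.mul_assoc]
      rw [e1]
      exact A.mul_mem hy hx
  have hhF : (B * Qi * Bᵀ) * (cj B Bi (hw w S P))ᵀ * (Biᵀ * toC Q * Bi) = -cj B Bi (hw w S P) := by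
    rw [t1]
    exact hsk _ H.hw_mem.1
  have hE : ∀ p : ℤ, (EW w S P B Bi (2 * p - w)).rank = (P p).rank := by
    intro p
    have e1 := H.EW_int B Bi p
    push_cast at e1
    rw [e1]
    unfold cj
    have uB : IsUnit B.det := by
      rw [← Matrix.isUnit_iff_isUnit_det]
      exact ⟨⟨B, Bi, h1, h2⟩, rfl⟩
    have uBi : IsUnit Bi.det := by
      rw [← Matrix.isUnit_iff_isUnit_det]
      exact ⟨⟨Bi, B, h2, h1⟩, rfl⟩
    rw [Matrix.rank_mul_eq_left_of_isUnit_det _ _ uBi, Matrix.rank_mul_eq_right_of_isUnit_det _ _ uB]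
  have key := NI.dich (H.specW h1 h2 hM) A hst hcen (fun a ha => hn _ (H.LB_h h2) a ha) f1 f2 hc hF hAF hhF w (by
      intro μ hμ
      by_contra hno
      push Not at hno
      apply hμ
      apply EW_other
      intro p _ h5
      exact hno p (by rw [← h5]; push_cast; rfl)) (by
      have e1 : (fun p : ℤ => (EW w S P B Bi (2 * p - w)).rank) = fun p => (P p).rank := funext hE
      rw [e1]
      exact hI)
  rcases key with h5 | h5
  · exact Or.inl fun a ha => h5 a (hJA a ha)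
  · refine Or.inr fun T hT => h5 T fun a ha => ?_
    rw [hA] at ha
    induction ha using Algebra.adjoin_induction with
    | mem x hx => exact hT x hx
    | algebraMap r =>
      rw [Algebra.algebraMap_eq_smul_one, mul_smul_comm, smul_mul_assoc, mul_one, one_mul]
    | add x y _ _ hx hy => rw [mul_add, add_mul, hx, hy]
    | mul x y _ _ hx hy => rw [← mul_assoc, hx, mul_assoc, hy, mul_assoc]

end basis

/-- **Irreducibility.** If the endomorphisms are the rational numbers and the Hodge numbers are not those of a tensor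
product, the tensor Lie algebra of the monodromy group acts absolutely irreducibly. -/
theorem irr (hEnd : ∀ A : Matrix n n ℚ, (∀ p, toC A * P p = P p * toC A) → ∃ c : ℚ, A = c • (1 : Matrix n n ℚ))
    (hI : NI.Indec w (fun p => (P p).rank)) {T : Matrix n n ℂ} (hT : ∀ X ∈ LG (mapC D), T * X = X * T) :
    ∃ c : ℂ, T = c • (1 : Matrix n n ℂ) := by
  rcases isEmpty_or_nonempty n with hne | hne
  · exact ⟨0, Subsingleton.elim _ _⟩
  obtain ⟨B, Bi, Qi, h1, h2, h3, h4, hM⟩ := H.exists_basis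
  rcases M.dichJ H h1 h2 h3 h4 hM hEnd hI with h5 | h5
  · exfalso
    obtain ⟨X, hX, hX0⟩ := M.exists_ne
    have h6 : ∀ Y ∈ (LG (mapC D) : Set (Matrix n n ℂ)), Y * hw w S P = hw w S P * Y := by
      intro Y hY
      have e1 := h5 (cj B Bi Y) (by rw [mem_JB, cj_cj h2]; exact hY)
      have e2 := congrArg (cj Bi B) e1
      rw [← cj_mul h1, ← cj_mul h1, cj_cj h2, cj_cj h2] at e2
      exact e2.symm
    obtain ⟨c, hc⟩ := EC_scalar hEnd (H.EC_of_set (fun σ Y hY => LG_aut σ hY) h6 hX)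
    have h7 := M.LG_skew hX
    rw [hc, Matrix.transpose_smul, Matrix.transpose_one, smul_mul_assoc, mul_smul_comm, one_mul, mul_one, ← two_smul ℂ,
      smul_smul] at h7
    have h8 : toC Q ≠ 0 := by
      intro h9
      rw [h9, zero_mul] at h3
      exact zero_ne_one h3
    rcases smul_eq_zero.1 h7 with h9 | h9
    · have : c = 0 := by simpa using h9
      apply hX0
      rw [hc, this, zero_smul]
    · exact h8 h9
  · have h6 : ∀ Y ∈ {Y : Matrix n n ℂ | ∀ X ∈ LG (mapC D), Y * X = X * Y}, Y * hw w S P = hw w S P * Y := by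
      intro Y hY
      have e1 := h5 (cj B Bi Y) (by
        intro a ha
        have e3 := hY _ (mem_JB.1 ha)
        have e4 := congrArg (cj B Bi) e3
        rwa [← cj_mul h2, ← cj_mul h2, cj_cj h1] at e4)
      have e2 := congrArg (cj Bi B) e1
      rwa [← cj_mul h1, ← cj_mul h1, cj_cj h2, cj_cj h2] at e2
    refine EC_scalar hEnd (H.EC_of_set (K := {Y : Matrix n n ℂ | ∀ X ∈ LG (mapC D), Y * X = X * Y}) ?_ h6 hT)
    intro σ Y hY X hX
    have e1 := hY _ (LG_aut σ.symm hX)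
    have e2 := congrArg (fun Z : Matrix n n ℂ => Z.map (σ : ℂ →+* ℂ)) e1
    simp only [Matrix.map_mul, IsHW.map_symm_map] at e2
    exact e2

end IsMon

end MH
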