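import Pool.Agent.Helper55.NI.Irr

/-!
Project NI (MP_b8862a_ag): the normaliser of the tensor Lie algebra of a monodromy group.
-/

set_option linter.unusedSectionVars false

open Matrix

namespace NI

open MH

variable {n : Type*} [Fintype n] [DecidableEq n]

/-- A matrix that normalises a self-adjoint Lie algebra `J` is the sum of an element of `J` and of a matrix that
commutes with `J`. -/
theorem nrm_split {J : Submodule ℂ (Matrix n n ℂ)} (br : ∀ x ∈ J, ∀ y ∈ J, x * y - y * x ∈ J) (st : ∀ x ∈ J, xᴴ ∈ J)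
    {X : Matrix n n ℂ} (hX : ∀ y ∈ J, X * y - y * X ∈ J) : ∃ Y ∈ J, ∀ y ∈ J, (X - Y) * y = y * (X - Y) := by
  obtain ⟨u, hu, huu, hg⟩ := exists_onb98 J
  refine ⟨∑ i, ((u i)ᴴ * X).trace • u i, J.sum_mem fun i _ => J.smul_mem _ (hu i), ?_⟩
  obtain ⟨Y, hY⟩ : ∃ Y : Matrix n n ℂ, Y = ∑ i, ((u i)ᴴ * X).trace • u i := ⟨_, rfl⟩
  rw [← hY]
  have hYJ : Y ∈ J := by
    rw [hY]
    exact J.sum_mem fun i _ => J.smul_mem _ (hu i)
  obtain ⟨Z, hZ⟩ : ∃ Z : Matrix n n ℂ, Z = X - Y := ⟨_, rfl⟩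
  rw [← hZ]
  -- `Z` is orthogonal to `J`
  have ho : ∀ m ∈ J, (mᴴ * Z).trace = 0 := by
    have h1 : ∀ j, ((u j)ᴴ * Z).trace = 0 := by
      intro j
      rw [hZ, mul_sub, Matrix.trace_sub, hY, Finset.mul_sum, Matrix.trace_sum]
      have h2 : ∀ i, ((u j)ᴴ * (((u i)ᴴ * X).trace • u i)).trace = if i = j then ((u i)ᴴ * X).trace else 0 := by
        intro i
        rw [mul_smul_comm, Matrix.trace_smul, huu, smul_eq_mul]
        by_cases h : j = i
        · rw [if_pos h, if_pos h.symm, mul_one]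
        · rw [if_neg h, if_neg (Ne.symm h), mul_zero]
      rw [Finset.sum_congr rfl fun i _ => h2 i, Finset.sum_ite_eq' Finset.univ j, if_pos (Finset.mem_univ _), sub_self]
    intro m hm
    rw [hg m hm, conjTranspose_sum, Finset.sum_mul, Matrix.trace_sum]
    refine Finset.sum_eq_zero fun i _ => ?_
    rw [conjTranspose_smul, smul_mul_assoc, Matrix.trace_smul, h1, smul_zero]
  intro a ha
  by_contra hne
  have hne' : Z * a - a * Z ≠ 0 := fun h => hne (sub_eq_zero.1 h)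
  have hJ : Z * a - a * Z ∈ J := by
    have e1 : Z * a - a * Z = (X * a - a * X) - (Y * a - a * Y) := by
      rw [hZ]
      noncomm_ring
    rw [e1]
    exact J.sub_mem (hX a ha) (br Y hYJ a ha)
  obtain ⟨v, hv⟩ : ∃ v : Matrix n n ℂ, v = (Z * a - a * Z)ᴴ := ⟨_, rfl⟩
  have hvJ : v ∈ J := by
    rw [hv]
    exact st _ hJ
  have h1 := trace_pos hne'
  have h2 : ((Z * a - a * Z)ᴴ * (Z * a - a * Z)).trace = 0 := by
    rw [← hv]
    have e1 : (v * (Z * a - a * Z)).trace = ((a * v - v * a) * Z).trace := by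
      rw [mul_sub, sub_mul, Matrix.trace_sub, Matrix.trace_sub]
      congr 1
      · rw [← mul_assoc, Matrix.trace_mul_comm, ← mul_assoc]
      · rw [← mul_assoc]
    rw [e1]
    have e2 := ho _ (st _ (br a ha v hvJ))
    rwa [conjTranspose_conjTranspose] at e2
  rw [h2] at h1
  simp at h1

end NI

namespace MH

variable {n : Type*} [Fintype n] [DecidableEq n]
variable {w : ℤ} {Q : Matrix n n ℚ} {S : Finset ℤ} {P : ℤ → Matrix n n ℂ} {D : Subgroup (GL n ℚ)}

namespace IsMon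

variable (M : IsMon Q S P D) (H : IsHW w Q S P)
include M H

/-- a matrix that normalises `J` is in `J` plus the commutant of `J` -/
theorem nrm' {X : Matrix n n ℂ} (hX : ∀ Y ∈ LG (mapC D), X * Y - Y * X ∈ LG (mapC D)) :
    ∃ Y ∈ LG (mapC D), ∀ Z ∈ LG (mapC D), (X - Y) * Z = Z * (X - Y) := by
  obtain ⟨B, Bi, Qi, h1, h2, h3, h4, hM⟩ := H.exists_basis
  obtain ⟨y, hy, hc⟩ := NI.nrm_split (J := JB D B Bi) (fun x hx y hy => M.JB_br H h1 hx hy)
    (fun x hx => M.JB_star H h1 h2 hM hx) (X := cj B Bi X) (by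
      intro y hy
      rw [mem_JB, cj_sub, ← cj_mul h1, ← cj_mul h1, cj_cj h2]
      exact hX _ (mem_JB.1 hy))
  refine ⟨cj Bi B y, mem_JB.1 hy, fun Z hZ => ?_⟩
  have e1 := hc (cj B Bi Z) (by rw [mem_JB, cj_cj h2]; exact hZ)
  have e2 := congrArg (cj Bi B) e1
  rw [← cj_mul h1, ← cj_mul h1, cj_sub, cj_cj h2, cj_cj h2] at e2
  exact e2

/-- **Normaliser.** A matrix that normalises `J` is in `J` plus the scalars. -/
theorem nrm (hEnd : ∀ A : Matrix n n ℚ, (∀ p, toC A * P p = P p * toC A) → ∃ c : ℚ, A = c • (1 : Matrix n n ℚ))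
    (hI : NI.Indec w (fun p => (P p).rank)) {X : Matrix n n ℂ}
    (hX : ∀ Y ∈ LG (mapC D), X * Y - Y * X ∈ LG (mapC D)) : ∃ c : ℂ, X - c • (1 : Matrix n n ℂ) ∈ LG (mapC D) := by
  obtain ⟨Y, hY, hc⟩ := M.nrm' H hX
  obtain ⟨c, e⟩ := M.irr H hEnd hI hc
  refine ⟨c, ?_⟩
  rw [← e, sub_sub_cancel]
  exact hY

/-- the Lie algebra of the Hodge group is in `J` -/
theorem LH_le (hEnd : ∀ A : Matrix n n ℚ, (∀ p, toC A * P p = P p * toC A) → ∃ c : ℚ, A = c • (1 : Matrix n n ℚ))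
    (hI : NI.Indec w (fun p => (P p).rank)) {X : Matrix n n ℂ} (hX : X ∈ LH Q S P) : X ∈ LG (mapC D) := by
  obtain ⟨c, hc⟩ := M.nrm H hEnd hI (fun Y hY => M.LH_norm H hX hY)
  have h1 := M.LG_skew hc
  have h2 := hX.1
  obtain ⟨B, Bi, Qi, b1, b2, h3, h4, hM⟩ := H.exists_basis
  have h5 : (2 * c) • toC Q = 0 := by
    have e1 : (X - c • (1 : Matrix n n ℂ))ᵀ * toC Q + toC Q * (X - c • (1 : Matrix n n ℂ)) =
        (Xᵀ * toC Q + toC Q * X) - (2 * c) • toC Q := by
      rw [Matrix.transpose_sub, Matrix.transpose_smul, Matrix.transpose_one, sub_mul, mul_sub, smul_mul_assoc, one_mul,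
        mul_smul_comm, mul_one, two_mul, add_smul]
      abel
    rw [e1, h2, zero_sub] at h1
    exact neg_eq_zero.1 h1
  rcases smul_eq_zero.1 h5 with h6 | h6
  · have h7 : c = 0 := by simpa using h6
    rw [h7, zero_smul, sub_zero] at hc
    exact hc
  · rw [h6, zero_mul] at h3
    rcases isEmpty_or_nonempty n with hne | hne
    · have : X = 0 := Subsingleton.elim _ _
      rw [this]
      exact (LG (mapC D)).zero_mem
    · exact absurd h3 zero_ne_one

end IsMon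

end MH
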